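import Mathlib

open Filter MeasureTheory Set
open scoped Topology ENNReal

namespace Pool.Agent.Lib.MP_38ba9c_an

/-- `u` is a solution on `[0, ∞)` of `u'' + c u' + A u = f`, and `v` is its derivative:
`u` is differentiable on `[0, ∞)` with derivative `v`, the derivative `v` is absolutely continuous on
every `[0, T]` (so `u` is `C¹`), and `v' (t) = f t - c v (t) - A u (t)` for almost every `t > 0`. -/
structure IsSolution {d : ℕ} (A : Matrix (Fin d) (Fin d) ℝ) (c : ℝ)
    (f u v : ℝ → EuclideanSpace ℝ (Fin d)) : Prop where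
  hasDeriv : ∀ t, 0 ≤ t → HasDerivWithinAt u (v t) (Ici 0) t
  absCont : ∀ T, 0 < T → AbsolutelyContinuousOnInterval v 0 T
  eqn : ∀ᵐ t ∂(volume : Measure ℝ), 0 < t →
    HasDerivAt v (f t - c • v t - Matrix.toEuclideanLin A (u t)) t

/-- `ess limsup_{t → ∞} |f t|`, as an extended nonnegative real: the infimum of the bounds `a` such
that, for some `T`, `|f t| ≤ a` for almost every `t ≥ T`. -/
noncomputable def essLimsup {d : ℕ} (f : ℝ → EuclideanSpace ℝ (Fin d)) : ℝ≥0∞ :=
  limsup (fun t => ‖f t‖ₑ) (atTop ⊓ ae (volume : Measure ℝ))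

/-- `k` is an admissible constant for `(A, c)`: for every locally integrable `f` on `[0, ∞)` with
`ess limsup |f| < ∞` and every solution `u` (with derivative `v = u'`),
`limsup |u'| ≤ k * ess limsup |f|`. -/
def Admissible {d : ℕ} (A : Matrix (Fin d) (Fin d) ℝ) (c k : ℝ) : Prop :=
  0 ≤ k ∧ ∀ f u v : ℝ → EuclideanSpace ℝ (Fin d), LocallyIntegrableOn f (Ici 0) volume →
    essLimsup f < ∞ → IsSolution A c f u v →
      limsup (fun t => ‖v t‖ₑ) atTop ≤ ENNReal.ofReal k * essLimsup f

/-- The sharp constant `K(A, c)`. -/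
noncomputable def K {d : ℕ} (A : Matrix (Fin d) (Fin d) ℝ) (c : ℝ) : ℝ :=
  sInf {k : ℝ | Admissible A c k}

end Pool.Agent.Lib.MP_38ba9c_an
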