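import Mathlib

open Filter MeasureTheory Set Topology intervalIntegral

namespace Pool.Agent.Lib.MP_38ba9c_an

/-- The properties of the impulse response `G` of `x'' + c x' + l x` and its derivative `h`. -/
structure IsKernel (c l : ℝ) (G h : ℝ → ℝ) : Prop where
  G_zero : G 0 = 0
  h_zero : h 0 = 1
  hasDeriv_G : ∀ t, HasDerivAt G (h t) t
  hasDeriv_h : ∀ t, HasDerivAt h (-c * h t - l * G t) t
  tendsto_G : Tendsto G atTop (𝓝 0)
  tendsto_h : Tendsto h atTop (𝓝 0)
  excess : ∀ T, 0 ≤ T → ∫ t in (0 : ℝ)..T, max (|h t| - Real.exp (-c * t)) 0 ≤ 1 / c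

section one

variable {l : ℝ} {G h : ℝ → ℝ}

lemma cont_of_hasDeriv {g g' : ℝ → ℝ} (hg : ∀ t, HasDerivAt g (g' t) t) : Continuous g :=
  continuous_iff_continuousAt.mpr fun t => (hg t).continuousAt

/-- `h e^t` is antitone on an interval where `G ≥ 0`. -/
lemma antitone_aux (hh : ∀ t, HasDerivAt h (-1 * h t - l * G t) t)
    (hl : 0 < l) {s : Set ℝ} (hs : Convex ℝ s) (hpos : ∀ t ∈ s, 0 ≤ G t) :
    AntitoneOn (fun t => h t * Real.exp t) s := by
  have hd : ∀ t, HasDerivAt (fun t => h t * Real.exp t) (-(l * G t * Real.exp t)) t := by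
    intro t
    have := (hh t).mul (Real.hasDerivAt_exp t)
    refine HasDerivAt.congr_deriv this ?_
    ring
  apply antitoneOn_of_deriv_nonpos hs
  · exact (cont_of_hasDeriv hd).continuousOn
  · exact fun t _ => (hd t).differentiableAt.differentiableWithinAt
  · intro t ht
    rw [(hd t).deriv]
    have := hpos t (interior_subset ht)
    have : 0 ≤ l * G t * Real.exp t := by positivity
    linarith

lemma h_le_exp (hh : ∀ t, HasDerivAt h (-1 * h t - l * G t) t)
    (hl : 0 < l) (h0 : h 0 = 1) {L : ℝ} (hpos : ∀ t ∈ Icc 0 L, 0 ≤ G t) :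
    ∀ t ∈ Icc 0 L, h t ≤ Real.exp (-1 * t) := by
  intro t ht
  have hanti := antitone_aux hh hl (convex_Icc 0 L) hpos
  have h1 := hanti (left_mem_Icc.mpr (ht.1.trans ht.2)) ht ht.1
  simp only [h0, Real.exp_zero, mul_one] at h1
  have h2 : Real.exp (-1 * t) = (Real.exp t)⁻¹ := by rw [← Real.exp_neg]; ring_nf
  rw [h2, ← one_div, le_div_iff₀ (Real.exp_pos t)]
  exact h1

lemma integral_exp_neg (T : ℝ) : ∫ t in (0 : ℝ)..T, Real.exp (-1 * t) = 1 - Real.exp (-1 * T) := by
  have hd : ∀ t : ℝ, HasDerivAt (fun t => -Real.exp (-1 * t)) (Real.exp (-1 * t)) t := by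
    intro t
    have h1 : HasDerivAt (fun t : ℝ => -1 * t) (-1 * 1) t := (hasDerivAt_id t).const_mul (-1)
    have h2 := (h1.exp).neg
    refine HasDerivAt.congr_deriv h2 ?_
    ring
  rw [integral_eq_sub_of_hasDerivAt (fun t _ => hd t)]
  · simp; ring
  · exact (by fun_prop : Continuous fun t : ℝ => Real.exp (-1 * t)).intervalIntegrable _ _

/-- Case of a nonnegative impulse response. -/
lemma excess_of_nonneg (hG : ∀ t, HasDerivAt G (h t) t)
    (hh : ∀ t, HasDerivAt h (-1 * h t - l * G t) t) (hl : 0 < l) (hG0 : G 0 = 0) (h0 : h 0 = 1)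
    (hpos : ∀ t, 0 ≤ t → 0 ≤ G t) (T : ℝ) (hT : 0 ≤ T) :
    ∫ t in (0 : ℝ)..T, max (|h t| - Real.exp (-1 * t)) 0 ≤ 1 := by
  have hle := h_le_exp hh hl h0 (L := T) (fun t ht => hpos t ht.1)
  have hcG := cont_of_hasDeriv hG
  have hch := cont_of_hasDeriv hh
  have hce : Continuous fun t : ℝ => Real.exp (-1 * t) := by fun_prop
  calc ∫ t in (0 : ℝ)..T, max (|h t| - Real.exp (-1 * t)) 0
      ≤ ∫ t in (0 : ℝ)..T, (Real.exp (-1 * t) - h t) := by
        apply integral_mono_on hT
        · exact ((hch.abs.sub hce).max continuous_const).intervalIntegrable _ _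
        · exact (hce.sub hch).intervalIntegrable _ _
        · intro t ht
          have h1 := hle t ht
          apply max_le
          · rcases abs_cases (h t) with ⟨h2, _⟩ | ⟨h2, _⟩
            · rw [h2]; linarith
            · rw [h2]
              have := Real.exp_pos (-1 * t)
              linarith
          · linarith
    _ = (1 - Real.exp (-1 * T)) - (G T - G 0) := by
        rw [integral_sub (hce.intervalIntegrable _ _) (hch.intervalIntegrable _ _),
          integral_exp_neg, integral_eq_sub_of_hasDerivAt (fun t _ => hG t)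
            (hch.intervalIntegrable _ _)]
    _ ≤ 1 := by
        rw [hG0]
        have := hpos T hT
        have := Real.exp_pos (-1 * T)
        linarith

lemma two_div_exp_bound {q : ℝ} (hq : q ≤ Real.exp (-2)) :
    2 * Real.exp (-1) + q * (4 * Real.exp (-1) / (1 - q)) ≤ 1 := by
  have he := Real.exp_one_gt_d9
  have he2 : Real.exp (-1) = (Real.exp 1)⁻¹ := Real.exp_neg 1
  have he3 : Real.exp (-2) = (Real.exp 1 ^ 2)⁻¹ := by
    rw [← Real.exp_nat_mul, ← Real.exp_neg]; norm_num
  set e := Real.exp 1 with hedef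
  have he0 : 0 < e := Real.exp_pos 1
  have hq1 : q * e ^ 2 ≤ 1 := by
    rw [he3] at hq
    calc q * e ^ 2 ≤ (e ^ 2)⁻¹ * e ^ 2 := by gcongr
      _ = 1 := by field_simp
  have he4 : (7.389 : ℝ) < e ^ 2 := by nlinarith
  have hq2 : q < 1 := by
    by_contra hcon
    push Not at hcon
    nlinarith
  have h1q : 0 < 1 - q := by linarith
  rw [he2]
  have key : 2 * (1 + q) ≤ e * (1 - q) := by
    have h5 : 0 ≤ e ^ 3 - 2 * e ^ 2 - e - 2 := by nlinarith [mul_pos he0 he0]
    -- `q (e + 2) ≤ e - 2`
    have h6 : q * (e + 2) ≤ e - 2 := by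
      have h7 : q * (e + 2) * e ^ 2 ≤ (e - 2) * e ^ 2 := by
        calc q * (e + 2) * e ^ 2 = (q * e ^ 2) * (e + 2) := by ring
          _ ≤ 1 * (e + 2) := by gcongr
          _ ≤ (e - 2) * e ^ 2 := by nlinarith
      exact le_of_mul_le_mul_right h7 (by positivity)
    linarith
  have : 2 * e⁻¹ + q * (4 * e⁻¹ / (1 - q)) = (2 * (1 + q)) / (e * (1 - q)) := by
    field_simp
    ring
  rw [this, div_le_one (by positivity)]
  exact key

/-- Underdamped case with slow oscillation. -/
lemma excess_of_shift (hG : ∀ t, HasDerivAt G (h t) t)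
    (hh : ∀ t, HasDerivAt h (-1 * h t - l * G t) t) (hl : 0 < l) (hG0 : G 0 = 0) (h0 : h 0 = 1)
    {L q : ℝ} (hL : 0 < L) (hpos : ∀ t ∈ Icc 0 L, 0 ≤ G t) (hGL : G L = 0)
    (hq0 : 0 < q) (hq : q ≤ Real.exp (-2)) (hshift : ∀ t, h (t + L) = -q * h t)
    (hGle : ∀ t, 0 ≤ t → G t ≤ 2 * Real.exp (-1)) (T : ℝ) (hT : 0 ≤ T) :
    ∫ t in (0 : ℝ)..T, max (|h t| - Real.exp (-1 * t)) 0 ≤ 1 := by
  have hle := h_le_exp hh hl h0 hpos
  have hch := cont_of_hasDeriv hh
  have hca : Continuous fun t => |h t| := hch.abs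
  have hce : Continuous fun t : ℝ => Real.exp (-1 * t) := by fun_prop
  set J : ℝ → ℝ := fun t => max (|h t| - Real.exp (-1 * t)) 0 with hJ
  have hcJ : Continuous J := (hca.sub hce).max continuous_const
  have hJ0 : ∀ t, 0 ≤ J t := fun t => le_max_right _ _
  have hJh : ∀ t, J t ≤ |h t| := by
    intro t
    apply max_le
    · have := Real.exp_pos (-1 * t)
      linarith
    · exact abs_nonneg _
  -- the zero of `h`
  have hanti := antitone_aux hh hl (convex_Icc 0 L) hpos
  have hhL : h L = -q := by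
    have := hshift 0
    rw [zero_add, h0] at this
    rw [this]; ring
  obtain ⟨s, hs, hs0⟩ : ∃ s ∈ Icc 0 L, h s = 0 := by
    have h1 := intermediate_value_Icc' hL.le (f := h) hch.continuousOn
    have h2 : (0 : ℝ) ∈ Icc (h L) (h 0) := by rw [hhL, h0]; constructor <;> linarith
    obtain ⟨s, hs, hs0⟩ := h1 h2
    exact ⟨s, hs, hs0⟩
  have hpos1 : ∀ t ∈ Icc 0 s, 0 ≤ h t := by
    intro t ht
    have h1 := hanti ⟨ht.1, ht.2.trans hs.2⟩ hs ht.2
    simp only [hs0, zero_mul] at h1
    exact nonneg_of_mul_nonneg_left h1 (Real.exp_pos t)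
  have hneg1 : ∀ t ∈ Icc s L, h t ≤ 0 := by
    intro t ht
    have h1 := hanti hs ⟨hs.1.trans ht.1, ht.2⟩ ht.1
    simp only [hs0, zero_mul] at h1
    by_contra hcon
    push Not at hcon
    have : 0 < h t * Real.exp t := mul_pos hcon (Real.exp_pos t)
    linarith
  have hint : ∀ a b, IntervalIntegrable (fun t => |h t|) volume a b :=
    fun a b => hca.intervalIntegrable a b
  have hintJ : ∀ a b, IntervalIntegrable J volume a b := fun a b => hcJ.intervalIntegrable a b
  have hI1 : ∫ t in (0 : ℝ)..s, |h t| = G s := by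
    have : ∫ t in (0 : ℝ)..s, |h t| = ∫ t in (0 : ℝ)..s, h t := by
      apply integral_congr
      intro t ht
      rw [uIcc_of_le hs.1] at ht
      exact abs_of_nonneg (hpos1 t ht)
    rw [this, integral_eq_sub_of_hasDerivAt (fun t _ => hG t) (hch.intervalIntegrable _ _), hG0,
      sub_zero]
  have hI2 : ∫ t in s..L, |h t| = G s := by
    have : ∫ t in s..L, |h t| = ∫ t in s..L, -h t := by
      apply integral_congr
      intro t ht
      rw [uIcc_of_le hs.2] at ht
      exact abs_of_nonpos (hneg1 t ht)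
    rw [this, intervalIntegral.integral_neg, integral_eq_sub_of_hasDerivAt (fun t _ => hG t)
      (hch.intervalIntegrable _ _), hGL]
    ring
  have hGs : G s ≤ 2 * Real.exp (-1) := hGle s hs.1
  -- total variation
  set X : ℝ → ℝ := fun T => ∫ t in (0 : ℝ)..T, |h t| with hX
  have hXmono : ∀ a b, 0 ≤ a → a ≤ b → X a ≤ X b := by
    intro a b ha hab
    simp only [hX]
    rw [← integral_add_adjacent_intervals (hint 0 a) (hint a b)]
    have : 0 ≤ ∫ t in a..b, |h t| := integral_nonneg hab (fun t _ => abs_nonneg _)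
    linarith
  have hXL : X L ≤ 4 * Real.exp (-1) := by
    simp only [hX]
    rw [← integral_add_adjacent_intervals (hint 0 s) (hint s L), hI1, hI2]
    linarith
  have hshiftI : ∀ T, L ≤ T → ∫ t in L..T, |h t| = q * X (T - L) := by
    intro T hT
    have h1 : ∫ t in (0 : ℝ)..(T - L), |h (t + L)| = ∫ t in (0 + L)..(T - L + L), |h t| :=
      integral_comp_add_right (fun t => |h t|) L
    rw [zero_add, sub_add_cancel] at h1
    rw [← h1]
    simp only [hX]
    rw [← intervalIntegral.integral_const_mul]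
    apply integral_congr
    intro t _
    simp only [hshift, abs_mul, abs_neg, abs_of_pos hq0]
  have hq1 : q < 1 := by
    have : Real.exp (-2) < 1 := by
      rw [Real.exp_lt_one_iff]; norm_num
    linarith
  have h1q : 0 < 1 - q := by linarith
  have hXle : ∀ T, 0 ≤ T → X T ≤ 4 * Real.exp (-1) / (1 - q) := by
    intro T hT
    rw [le_div_iff₀ h1q]
    have hXT0 : 0 ≤ X T := integral_nonneg hT (fun t _ => abs_nonneg _)
    rcases le_total T L with hTL | hTL
    · have h1 := hXmono T L hT hTL
      nlinarith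
    · have h1 : X T = X L + ∫ t in L..T, |h t| := by
        simp only [hX]
        rw [integral_add_adjacent_intervals (hint 0 L) (hint L T)]
      have h2 : X (T - L) ≤ X T := hXmono _ _ (by linarith) (by linarith)
      rw [hshiftI T hTL] at h1
      nlinarith
  -- conclusion
  have hT' : L ≤ T + L := by linarith
  calc ∫ t in (0 : ℝ)..T, J t ≤ ∫ t in (0 : ℝ)..(T + L), J t := by
        rw [← integral_add_adjacent_intervals (hintJ 0 T) (hintJ T (T + L))]
        have : 0 ≤ ∫ t in T..(T + L), J t := integral_nonneg (by linarith) (fun t _ => hJ0 t)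
        linarith
    _ = (∫ t in (0 : ℝ)..s, J t) + (∫ t in s..L, J t) + ∫ t in L..(T + L), J t := by
        rw [integral_add_adjacent_intervals (hintJ 0 s) (hintJ s L),
          integral_add_adjacent_intervals (hintJ 0 L) (hintJ L (T + L))]
    _ ≤ 0 + G s + q * X (T + L - L) := by
        gcongr
        · apply le_of_eq
          have : ∫ t in (0 : ℝ)..s, J t = ∫ t in (0 : ℝ)..s, (0 : ℝ) := by
            apply integral_congr
            intro t ht
            rw [uIcc_of_le hs.1] at ht
            simp only [hJ]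
            apply max_eq_right
            rw [abs_of_nonneg (hpos1 t ht)]
            have := hle t ⟨ht.1, ht.2.trans hs.2⟩
            linarith
          rw [this]; simp
        · rw [← hI2]
          exact integral_mono_on hs.2 (hintJ _ _) (hint _ _) (fun t _ => hJh t)
        · rw [← hshiftI _ hT']
          exact integral_mono_on hT' (hintJ _ _) (hint _ _) (fun t _ => hJh t)
    _ ≤ 2 * Real.exp (-1) + q * (4 * Real.exp (-1) / (1 - q)) := by
        have h1 : T + L - L = T := by ring
        rw [h1, zero_add]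
        have := hXle T hT
        gcongr
    _ ≤ 1 := two_div_exp_bound hq

lemma hasDerivAt_max_sq (y : ℝ) : HasDerivAt (fun y : ℝ => (max y 0) ^ 2) (2 * max y 0) y := by
  rcases lt_trichotomy y 0 with hy | hy | hy
  · rw [max_eq_right hy.le, mul_zero]
    have : (fun y : ℝ => (max y 0) ^ 2) =ᶠ[𝓝 y] fun _ => 0 := by
      filter_upwards [gt_mem_nhds hy] with z hz
      rw [max_eq_right (le_of_lt hz)]; norm_num
    exact (hasDerivAt_const y (0 : ℝ)).congr_of_eventuallyEq this
  · subst hy
    simp only [max_self, mul_zero]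
    rw [hasDerivAt_iff_isLittleO]
    simp only [max_self, sub_zero, smul_zero]
    have h1 : (fun x : ℝ => (max x 0) ^ 2 - 0 ^ 2) =O[𝓝 0] fun x : ℝ => x ^ 2 := by
      apply Asymptotics.IsBigO.of_bound 1
      filter_upwards with x
      simp only [Real.norm_eq_abs, one_mul]
      rcases le_total x 0 with hx | hx
      · rw [max_eq_right hx]; simp; positivity
      · rw [max_eq_left hx]; simp
    refine h1.trans_isLittleO ?_
    exact Asymptotics.isLittleO_pow_id one_lt_two
  · rw [max_eq_left hy.le]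
    have : (fun y : ℝ => (max y 0) ^ 2) =ᶠ[𝓝 y] fun y => y ^ 2 := by
      filter_upwards [lt_mem_nhds hy] with z hz
      rw [max_eq_left (le_of_lt hz)]
    have h2 := (hasDerivAt_pow 2 y)
    simp only [Nat.cast_ofNat, Nat.add_one_sub_one, pow_one] at h2
    exact h2.congr_of_eventuallyEq this

/-- Underdamped case with fast oscillation, by the energy `h² + l G²`. -/
lemma excess_of_energy (hG : ∀ t, HasDerivAt G (h t) t)
    (hh : ∀ t, HasDerivAt h (-1 * h t - l * G t) t) (hl : 4 / 5 ≤ l) (hG0 : G 0 = 0) (h0 : h 0 = 1)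
    (T : ℝ) (hT : 0 ≤ T) :
    ∫ t in (0 : ℝ)..T, max (|h t| - Real.exp (-1 * t)) 0 ≤ 1 := by
  have hcG := cont_of_hasDeriv hG
  have hch := cont_of_hasDeriv hh
  have hce : Continuous fun t : ℝ => Real.exp (-1 * t) := by fun_prop
  -- the identity `h² + h G + l G² = e^{-t}`
  have hid : ∀ t, h t ^ 2 + h t * G t + l * G t ^ 2 = Real.exp (-1 * t) := by
    have hd : ∀ t, HasDerivAt (fun t => (h t ^ 2 + h t * G t + l * G t ^ 2) * Real.exp t) 0 t := by
      intro t
      have h1 := (((hh t).pow 2).add ((hh t).mul (hG t))).add (((hG t).pow 2).const_mul l)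
      have h2 := h1.mul (Real.hasDerivAt_exp t)
      refine HasDerivAt.congr_deriv h2 ?_
      simp only [Pi.add_apply, Pi.mul_apply, Pi.pow_apply]
      norm_num
      ring
    intro t
    have hconst := is_const_of_deriv_eq_zero (fun t => (hd t).differentiableAt)
      (fun t => (hd t).deriv) t 0
    simp only [h0, hG0, Real.exp_zero] at hconst
    have h2 : Real.exp (-1 * t) = (Real.exp t)⁻¹ := by rw [← Real.exp_neg]; ring_nf
    rw [h2]
    refine eq_inv_of_mul_eq_one_left ?_
    rw [hconst]
    norm_num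
  set E : ℝ → ℝ := fun t => h t ^ 2 + l * G t ^ 2 with hE
  have hEle : ∀ t, E t ≤ 64 / 27 * Real.exp (-1 * t) := by
    intro t
    rw [← hid t]
    simp only [hE]
    nlinarith [sq_nonneg (37 * h t + 32 * G t), sq_nonneg (G t), sq_nonneg (h t)]
  have hEpos : ∀ t, 0 < E t := by
    intro t
    have h1 := hid t
    have h2 := Real.exp_pos (-1 * t)
    simp only [hE]
    nlinarith [sq_nonneg (h t - G t), sq_nonneg (h t), sq_nonneg (G t)]
  set ρ : ℝ → ℝ := fun t => Real.sqrt (E t) with hρ
  have hρpos : ∀ t, 0 < ρ t := fun t => Real.sqrt_pos.mpr (hEpos t)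
  have hρsq : ∀ t, ρ t ^ 2 = E t := fun t => Real.sq_sqrt (hEpos t).le
  have hEd : ∀ t, HasDerivAt E (-2 * h t ^ 2) t := by
    intro t
    have h1 := ((hh t).pow 2).add (((hG t).pow 2).const_mul l)
    refine HasDerivAt.congr_deriv h1 ?_
    norm_num
    ring
  have hρd : ∀ t, HasDerivAt ρ (-(h t ^ 2 / ρ t)) t := by
    intro t
    have h1 := (hEd t).sqrt (hEpos t).ne'
    refine HasDerivAt.congr_deriv h1 ?_
    simp only [hρ]
    have := Real.sqrt_pos.mpr (hEpos t)
    field_simp
  have hcρ := cont_of_hasDeriv hρd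
  have hcint : Continuous fun t => h t ^ 2 / ρ t :=
    (hch.pow 2).div hcρ (fun t => (hρpos t).ne')
  have hI1 : ∫ t in (0 : ℝ)..T, h t ^ 2 / ρ t ≤ 1 := by
    have h1 : ∫ t in (0 : ℝ)..T, -(h t ^ 2 / ρ t) = ρ T - ρ 0 :=
      integral_eq_sub_of_hasDerivAt (fun t _ => hρd t) (hcint.neg.intervalIntegrable _ _)
    rw [intervalIntegral.integral_neg] at h1
    have h2 : ρ 0 = 1 := by simp [hρ, hE, h0, hG0]
    have h3 := hρpos T
    linarith
  set κ : ℝ := (Real.sqrt 3)⁻¹ with hκ
  have hs3 : 0 < Real.sqrt 3 := Real.sqrt_pos.mpr (by norm_num)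
  have hκ0 : 0 < κ := inv_pos.mpr hs3
  have hκsq : κ ^ 2 = 1 / 3 := by
    rw [hκ, inv_pow, Real.sq_sqrt (by norm_num)]; norm_num
  have hρle : ∀ t, 3 / 8 * ρ t ≤ κ * Real.exp (-t / 2) := by
    intro t
    have h1 : (3 / 8 * ρ t) ^ 2 ≤ (κ * Real.exp (-t / 2)) ^ 2 := by
      rw [mul_pow, mul_pow, hρsq, hκsq]
      have h2 : Real.exp (-t / 2) ^ 2 = Real.exp (-1 * t) := by
        rw [← Real.exp_nat_mul]; congr 1; push_cast; ring
      rw [h2]
      have := hEle t
      nlinarith
    have h3 : 0 ≤ κ * Real.exp (-t / 2) := by positivity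
    have h4 : 0 ≤ 3 / 8 * ρ t := by have := hρpos t; positivity
    exact (pow_le_pow_iff_left₀ h4 h3 two_ne_zero).mp h1
  set N : ℝ → ℝ := fun t => (max (κ - Real.exp (-t / 2)) 0) ^ 2 with hN
  have hNd : ∀ t, HasDerivAt N (Real.exp (-t / 2) * max (κ - Real.exp (-t / 2)) 0) t := by
    intro t
    have h1 : HasDerivAt (fun t : ℝ => -t / 2) (-1 / 2) t := by
      have := ((hasDerivAt_id t).neg).div_const 2
      simpa using this
    have h2 : HasDerivAt (fun t : ℝ => κ - Real.exp (-t / 2)) (-(Real.exp (-t / 2) * (-1 / 2))) t :=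
      (h1.exp).const_sub κ
    have h3 := (hasDerivAt_max_sq (κ - Real.exp (-t / 2))).comp t h2
    refine HasDerivAt.congr_deriv h3 ?_
    ring
  have hcN : Continuous fun t => Real.exp (-t / 2) * max (κ - Real.exp (-t / 2)) 0 := by
    fun_prop
  have hI2 : ∫ t in (0 : ℝ)..T, Real.exp (-t / 2) * max (κ - Real.exp (-t / 2)) 0 ≤ 1 / 3 := by
    rw [integral_eq_sub_of_hasDerivAt (fun t _ => hNd t) (hcN.intervalIntegrable _ _)]
    have h1 : 0 ≤ N 0 := by simp only [hN]; positivity
    have h2 : N T ≤ κ ^ 2 := by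
      simp only [hN]
      have h4 : max (κ - Real.exp (-T / 2)) 0 ≤ κ := by
        apply max_le _ hκ0.le
        have := Real.exp_pos (-T / 2)
        linarith
      have h5 : 0 ≤ max (κ - Real.exp (-T / 2)) 0 := le_max_right _ _
      gcongr
    rw [hκsq] at h2
    linarith
  calc ∫ t in (0 : ℝ)..T, max (|h t| - Real.exp (-1 * t)) 0
      ≤ ∫ t in (0 : ℝ)..T, (2 / 3 * (h t ^ 2 / ρ t) +
          Real.exp (-t / 2) * max (κ - Real.exp (-t / 2)) 0) := by
        apply integral_mono_on hT
        · exact ((hch.abs.sub hce).max continuous_const).intervalIntegrable _ _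
        · exact ((hcint.const_mul _).add hcN).intervalIntegrable _ _
        · intro t _
          have hr := hρpos t
          have hx := Real.exp_pos (-t / 2)
          have h2 : Real.exp (-1 * t) = Real.exp (-t / 2) ^ 2 := by
            rw [← Real.exp_nat_mul]; congr 1; push_cast; ring
          have h3 : |h t| ≤ 2 / 3 * (h t ^ 2 / ρ t) + 3 / 8 * ρ t := by
            have h4 : h t ^ 2 = |h t| ^ 2 := (sq_abs _).symm
            have h5 : 2 / 3 * (h t ^ 2 / ρ t) + 3 / 8 * ρ t - |h t| =
                (4 * |h t| - 3 * ρ t) ^ 2 / (24 * ρ t) := by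
              rw [h4]; field_simp; ring
            have h6 : 0 ≤ (4 * |h t| - 3 * ρ t) ^ 2 / (24 * ρ t) := by positivity
            linarith
          have h7 := hρle t
          have h8 : κ - Real.exp (-t / 2) ≤ max (κ - Real.exp (-t / 2)) 0 := le_max_left _ _
          have h9 : 0 ≤ max (κ - Real.exp (-t / 2)) 0 := le_max_right _ _
          apply max_le
          · rw [h2]
            nlinarith
          · positivity
    _ = 2 / 3 * (∫ t in (0 : ℝ)..T, h t ^ 2 / ρ t) +
          ∫ t in (0 : ℝ)..T, Real.exp (-t / 2) * max (κ - Real.exp (-t / 2)) 0 := by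
        rw [integral_add ((hcint.const_mul _).intervalIntegrable _ _)
          (hcN.intervalIntegrable _ _), intervalIntegral.integral_const_mul]
    _ ≤ 2 / 3 * 1 + 1 / 3 := by gcongr
    _ = 1 := by norm_num

end one

/-- Overdamped impulse response, `α ≠ β`. -/
lemma over_deriv {α β : ℝ} (t : ℝ) :
    HasDerivAt (fun t => (Real.exp (-α * t) - Real.exp (-β * t)) / (β - α))
      ((β * Real.exp (-β * t) - α * Real.exp (-α * t)) / (β - α)) t := by
  have h1 : HasDerivAt (fun t : ℝ => -α * t) (-α * 1) t := (hasDerivAt_id t).const_mul (-α)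
  have h2 : HasDerivAt (fun t : ℝ => -β * t) (-β * 1) t := (hasDerivAt_id t).const_mul (-β)
  refine HasDerivAt.congr_deriv ((h1.exp.sub h2.exp).div_const (β - α)) ?_
  ring

lemma over_deriv' {α β : ℝ} (hab : α < β) (t : ℝ) :
    HasDerivAt (fun t => (β * Real.exp (-β * t) - α * Real.exp (-α * t)) / (β - α))
      (-(α + β) * ((β * Real.exp (-β * t) - α * Real.exp (-α * t)) / (β - α)) -
        (α * β) * ((Real.exp (-α * t) - Real.exp (-β * t)) / (β - α))) t := by
  have h1 : HasDerivAt (fun t : ℝ => -α * t) (-α * 1) t := (hasDerivAt_id t).const_mul (-α)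
  have h2 : HasDerivAt (fun t : ℝ => -β * t) (-β * 1) t := (hasDerivAt_id t).const_mul (-β)
  refine HasDerivAt.congr_deriv (((h2.exp.const_mul β).sub (h1.exp.const_mul α)).div_const (β - α)) ?_
  have : β - α ≠ 0 := by linarith
  field_simp
  ring

lemma tendsto_exp_neg_mul {α : ℝ} (hα : 0 < α) :
    Tendsto (fun t : ℝ => Real.exp (-α * t)) atTop (𝓝 0) := by
  have h1 : Tendsto (fun t : ℝ => -α * t) atTop atBot :=
    tendsto_id.const_mul_atTop_of_neg (by linarith)
  exact Real.tendsto_exp_atBot.comp h1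

lemma kernel_over {l : ℝ} (hl : 0 < l) (hl4 : l < 1 / 4) : ∃ G h, IsKernel 1 l G h := by
  set s := Real.sqrt (1 - 4 * l) with hs
  have hs0 : 0 < s := Real.sqrt_pos.mpr (by linarith)
  have hs1 : s < 1 := by
    rw [hs, Real.sqrt_lt' one_pos]; linarith
  have hsq : s ^ 2 = 1 - 4 * l := Real.sq_sqrt (by linarith)
  set α := (1 - s) / 2 with hα
  set β := (1 + s) / 2 with hβ
  have hα0 : 0 < α := by linarith
  have hβ0 : 0 < β := by linarith
  have hab : α < β := by linarith
  have hsum : α + β = 1 := by rw [hα, hβ]; ring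
  have hprod : α * β = l := by rw [hα, hβ]; nlinarith
  set G : ℝ → ℝ := fun t => (Real.exp (-α * t) - Real.exp (-β * t)) / (β - α) with hG
  set h : ℝ → ℝ := fun t => (β * Real.exp (-β * t) - α * Real.exp (-α * t)) / (β - α) with hh
  have hba : 0 < β - α := by linarith
  have hGd : ∀ t, HasDerivAt G (h t) t := fun t => over_deriv t
  have hhd : ∀ t, HasDerivAt h (-1 * h t - l * G t) t := by
    intro t
    have := over_deriv' hab t
    rw [hsum, hprod] at this
    exact this
  have hG0 : G 0 = 0 := by simp [hG]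
  have hh0 : h 0 = 1 := by simp [hh, hba.ne']
  have hpos : ∀ t, 0 ≤ t → 0 ≤ G t := by
    intro t ht
    simp only [hG]
    apply div_nonneg _ hba.le
    have : Real.exp (-β * t) ≤ Real.exp (-α * t) := by
      apply Real.exp_le_exp.mpr
      nlinarith
    linarith
  refine ⟨G, h, hG0, hh0, hGd, hhd, ?_, ?_, ?_⟩
  · have := ((tendsto_exp_neg_mul hα0).sub (tendsto_exp_neg_mul hβ0)).div_const (β - α)
    simp only [sub_zero, zero_div] at this
    exact this
  · have := (((tendsto_exp_neg_mul hβ0).const_mul β).sub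
      ((tendsto_exp_neg_mul hα0).const_mul α)).div_const (β - α)
    simp only [mul_zero, sub_zero, zero_div] at this
    exact this
  · intro T hT
    have := excess_of_nonneg hGd hhd hl hG0 hh0 hpos T hT
    simpa using this

lemma kernel_crit : ∃ G h, IsKernel 1 (1 / 4) G h := by
  set G : ℝ → ℝ := fun t => t * Real.exp (-(1 / 2) * t) with hG
  set h : ℝ → ℝ := fun t => Real.exp (-(1 / 2) * t) - 1 / 2 * (t * Real.exp (-(1 / 2) * t)) with hh
  have he : ∀ t : ℝ, HasDerivAt (fun t : ℝ => Real.exp (-(1 / 2) * t))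
      (Real.exp (-(1 / 2) * t) * (-(1 / 2) * 1)) t := by
    intro t
    have h1 : HasDerivAt (fun t : ℝ => -(1 / 2) * t) (-(1 / 2) * 1) t :=
      (hasDerivAt_id t).const_mul (-(1 / 2))
    exact h1.exp
  have hGd : ∀ t, HasDerivAt G (h t) t := by
    intro t
    refine HasDerivAt.congr_deriv ((hasDerivAt_id t).mul (he t)) ?_
    simp only [hh, id]; ring
  have hhd : ∀ t, HasDerivAt h (-1 * h t - 1 / 4 * G t) t := by
    intro t
    refine HasDerivAt.congr_deriv ((he t).sub ((hGd t).const_mul (1 / 2))) ?_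
    simp only [hh, hG]; ring
  have hG0 : G 0 = 0 := by simp [hG]
  have hh0 : h 0 = 1 := by simp [hh]
  have hpos : ∀ t, 0 ≤ t → 0 ≤ G t := fun t ht => by simp only [hG]; positivity
  have htG : Tendsto G atTop (𝓝 0) := by
    have h1 := Real.tendsto_pow_mul_exp_neg_atTop_nhds_zero 1
    have h2 : Tendsto (fun t : ℝ => (1 / 2) * t) atTop atTop :=
      tendsto_id.const_mul_atTop (by norm_num)
    have h3 := (h1.comp h2).const_mul 2
    simp only [mul_zero] at h3
    refine h3.congr ?_
    intro t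
    simp only [Function.comp, hG, pow_one]
    rw [show -(1 / 2 * t) = -(1 / 2) * t by ring]
    ring
  refine ⟨G, h, hG0, hh0, hGd, hhd, htG, ?_, ?_⟩
  · have := (tendsto_exp_neg_mul (by norm_num : (0 : ℝ) < 1 / 2)).sub (htG.const_mul (1 / 2))
    simp only [mul_zero, sub_zero] at this
    exact this
  · intro T hT
    have := excess_of_nonneg hGd hhd (by norm_num) hG0 hh0 hpos T hT
    simpa using this

lemma kernel_under {l : ℝ} (hl4 : 1 / 4 < l) : ∃ G h, IsKernel 1 l G h := by
  set ω := Real.sqrt (l - 1 / 4) with hω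
  have hω0 : 0 < ω := Real.sqrt_pos.mpr (by linarith)
  have hωsq : ω ^ 2 = l - 1 / 4 := Real.sq_sqrt (by linarith)
  set e : ℝ → ℝ := fun t => Real.exp (-(1 / 2) * t) with he
  set G : ℝ → ℝ := fun t => e t * Real.sin (ω * t) / ω with hG
  set h : ℝ → ℝ := fun t => e t * Real.cos (ω * t) - 1 / 2 * (e t * Real.sin (ω * t) / ω) with hh
  have hed : ∀ t : ℝ, HasDerivAt e (e t * (-(1 / 2) * 1)) t := by
    intro t
    have h1 : HasDerivAt (fun t : ℝ => -(1 / 2) * t) (-(1 / 2) * 1) t :=
      (hasDerivAt_id t).const_mul (-(1 / 2))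
    exact h1.exp
  have hsd : ∀ t : ℝ, HasDerivAt (fun t => Real.sin (ω * t)) (Real.cos (ω * t) * (ω * 1)) t := by
    intro t
    exact ((hasDerivAt_id t).const_mul ω).sin
  have hcd : ∀ t : ℝ, HasDerivAt (fun t => Real.cos (ω * t)) (-Real.sin (ω * t) * (ω * 1)) t := by
    intro t
    exact ((hasDerivAt_id t).const_mul ω).cos
  have hGd : ∀ t, HasDerivAt G (h t) t := by
    intro t
    refine HasDerivAt.congr_deriv (((hed t).mul (hsd t)).div_const ω) ?_
    simp only [hh]
    field_simp
    ring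
  have hhd : ∀ t, HasDerivAt h (-1 * h t - l * G t) t := by
    intro t
    refine HasDerivAt.congr_deriv (((hed t).mul (hcd t)).sub ((hGd t).const_mul (1 / 2))) ?_
    have hl' : l = ω ^ 2 + 1 / 4 := by linarith
    simp only [hh, hG, hl']
    field_simp
    ring
  have hG0 : G 0 = 0 := by simp [hG]
  have hh0 : h 0 = 1 := by simp [hh, he]
  have hte : Tendsto e atTop (𝓝 0) := tendsto_exp_neg_mul (by norm_num)
  have hepos : ∀ t, 0 < e t := fun t => Real.exp_pos _
  have hts : Tendsto (fun t => e t * Real.sin (ω * t)) atTop (𝓝 0) := by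
    rw [tendsto_zero_iff_norm_tendsto_zero]
    apply squeeze_zero (fun t => norm_nonneg _) (fun t => ?_) hte
    rw [norm_mul, Real.norm_eq_abs, Real.norm_eq_abs, abs_of_pos (hepos t)]
    have := Real.abs_sin_le_one (ω * t)
    have := hepos t
    nlinarith [abs_nonneg (Real.sin (ω * t))]
  have htc : Tendsto (fun t => e t * Real.cos (ω * t)) atTop (𝓝 0) := by
    rw [tendsto_zero_iff_norm_tendsto_zero]
    apply squeeze_zero (fun t => norm_nonneg _) (fun t => ?_) hte
    rw [norm_mul, Real.norm_eq_abs, Real.norm_eq_abs, abs_of_pos (hepos t)]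
    have := Real.abs_cos_le_one (ω * t)
    have := hepos t
    nlinarith [abs_nonneg (Real.cos (ω * t))]
  have htG : Tendsto G atTop (𝓝 0) := by simpa using hts.div_const ω
  refine ⟨G, h, hG0, hh0, hGd, hhd, htG, ?_, ?_⟩
  · have := htc.sub (htG.const_mul (1 / 2))
    simp only [mul_zero, sub_zero] at this
    exact this
  intro T hT
  rw [one_div_one]
  rcases le_or_gt (4 / 5) l with h45 | h45
  · exact excess_of_energy hGd hhd h45 hG0 hh0 T hT
  · -- slow oscillation
    have hpi := Real.pi_gt_three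
    have hpi0 := Real.pi_pos
    have hωle : ω < 3 / 4 := by
      rw [hω, Real.sqrt_lt' (by norm_num)]; linarith
    set L := Real.pi / ω with hL
    have hL0 : 0 < L := by positivity
    have hωL : ω * L = Real.pi := by rw [hL]; field_simp
    set q := e L with hq
    have hL4 : 4 ≤ L := by
      rw [hL, le_div_iff₀ hω0]; linarith
    have hqle : q ≤ Real.exp (-2) := by
      simp only [hq, he]
      apply Real.exp_le_exp.mpr
      linarith
    have heL : ∀ t, e (t + L) = q * e t := by
      intro t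
      simp only [hq, he]
      rw [← Real.exp_add]
      congr 1
      ring
    have hshift : ∀ t, h (t + L) = -q * h t := by
      intro t
      have h1 : ω * (t + L) = ω * t + Real.pi := by rw [mul_add, hωL]
      simp only [hh]
      rw [h1, Real.sin_add_pi, Real.cos_add_pi, heL]
      ring
    have hpos : ∀ t ∈ Icc 0 L, 0 ≤ G t := by
      intro t ht
      simp only [hG]
      apply div_nonneg _ hω0.le
      apply mul_nonneg (hepos t).le
      apply Real.sin_nonneg_of_nonneg_of_le_pi
      · exact mul_nonneg hω0.le ht.1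
      · rw [← hωL]
        exact mul_le_mul_of_nonneg_left ht.2 hω0.le
    have hGL : G L = 0 := by
      simp only [hG, hωL, Real.sin_pi]; simp
    have hGle : ∀ t, 0 ≤ t → G t ≤ 2 * Real.exp (-1) := by
      intro t ht
      have h1 : Real.sin (ω * t) ≤ ω * t := Real.sin_le (mul_nonneg hω0.le ht)
      have h2 : G t ≤ t * e t := by
        simp only [hG]
        rw [div_le_iff₀ hω0]
        have := hepos t
        nlinarith
      have h3 : t / 2 ≤ Real.exp (t / 2 - 1) := by
        have := Real.add_one_le_exp (t / 2 - 1)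
        linarith
      have h4 : t * e t ≤ 2 * Real.exp (t / 2 - 1) * e t := by
        have := hepos t
        nlinarith
      have h5 : 2 * Real.exp (t / 2 - 1) * e t = 2 * Real.exp (-1) := by
        simp only [he]
        rw [mul_assoc, ← Real.exp_add]
        congr 2
        ring
      linarith
    exact excess_of_shift hGd hhd (by linarith) hG0 hh0 hL0 hpos hGL (hepos L) hqle hshift hGle T hT

lemma kernel_one {l : ℝ} (hl : 0 < l) : ∃ G h, IsKernel 1 l G h := by
  rcases lt_trichotomy l (1 / 4) with h1 | h1 | h1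
  · exact kernel_over hl h1
  · rw [h1]; exact kernel_crit
  · exact kernel_under h1

/-- Existence and properties of the impulse response. -/
theorem exists_kernel {c l : ℝ} (hc : 0 < c) (hl : 0 < l) : ∃ G h, IsKernel c l G h := by
  obtain ⟨G, h, hk⟩ := kernel_one (l := l / c ^ 2) (by positivity)
  have hmul : Tendsto (fun t : ℝ => c * t) atTop atTop := tendsto_id.const_mul_atTop hc
  have hlin : ∀ t : ℝ, HasDerivAt (fun t : ℝ => c * t) (c * 1) t :=
    fun t => (hasDerivAt_id t).const_mul c
  refine ⟨fun t => G (c * t) / c, fun t => h (c * t), ?_, ?_, ?_, ?_, ?_, ?_, ?_⟩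
  · simp [hk.G_zero]
  · simp [hk.h_zero]
  · intro t
    refine HasDerivAt.congr_deriv (((hk.hasDeriv_G (c * t)).comp t (hlin t)).div_const c) ?_
    field_simp
  · intro t
    refine HasDerivAt.congr_deriv ((hk.hasDeriv_h (c * t)).comp t (hlin t)) ?_
    field_simp
  · have := (hk.tendsto_G.comp hmul).div_const c
    simpa using this
  · exact hk.tendsto_h.comp hmul
  · intro T hT
    have h1 := hk.excess (c * T) (by positivity)
    have h2 : ∫ t in (0 : ℝ)..T, max (|h (c * t)| - Real.exp (-c * t)) 0 =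
        c⁻¹ • ∫ t in (c * 0)..(c * T), max (|h t| - Real.exp (-1 * t)) 0 := by
      rw [← intervalIntegral.integral_comp_mul_left (fun t => max (|h t| - Real.exp (-1 * t)) 0) hc.ne']
      apply integral_congr
      intro t _
      simp only
      rw [show -1 * (c * t) = -c * t by ring]
    rw [h2, mul_zero, smul_eq_mul, one_div]
    have hc' : 0 < c⁻¹ := inv_pos.mpr hc
    calc c⁻¹ * ∫ t in (0 : ℝ)..(c * T), max (|h t| - Real.exp (-1 * t)) 0
        ≤ c⁻¹ * (1 / 1) := by gcongr
      _ = c⁻¹ := by ring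

end Pool.Agent.Lib.MP_38ba9c_an
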