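import Mathlib
import Pool.Agent.Lib.MP_38ba9c_an.Kernel

open Filter MeasureTheory Set Topology intervalIntegral

namespace Pool.Agent.Lib.MP_38ba9c_an

/-- Composition of an absolutely continuous function with a Lipschitz function. -/
lemma ac_lipschitz_comp {X Y : Type*} [PseudoMetricSpace X] [PseudoMetricSpace Y] {f : ℝ → X}
    {g : X → Y} {C : NNReal} (hg : LipschitzWith C g) {a b : ℝ}
    (hf : AbsolutelyContinuousOnInterval f a b) :
    AbsolutelyContinuousOnInterval (fun x => g (f x)) a b := by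
  have h1 := Tendsto.const_mul (C : ℝ) hf
  rw [mul_zero] at h1
  refine squeeze_zero (fun E => Finset.sum_nonneg (fun i _ => dist_nonneg)) (fun E => ?_) h1
  rw [Finset.mul_sum]
  exact Finset.sum_le_sum (fun i _ => hg.dist_le_mul _ _)

/-- A function with a continuous derivative on `[0, T]` is absolutely continuous there. -/
lemma ac_of_deriv {F : Type*} [NormedAddCommGroup F] [NormedSpace ℝ F] {g g' : ℝ → F} {T : ℝ}
    (hT : 0 ≤ T) (hd : ∀ t ∈ Icc 0 T, HasDerivWithinAt g (g' t) (Icc 0 T) t)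
    (hc : ContinuousOn g' (Icc 0 T)) : AbsolutelyContinuousOnInterval g 0 T := by
  obtain ⟨C, hC⟩ := isCompact_Icc.exists_bound_of_continuousOn hc
  have hC0 : 0 ≤ C := (norm_nonneg _).trans (hC 0 (left_mem_Icc.mpr hT))
  have hlip : LipschitzOnWith C.toNNReal g (Icc 0 T) := by
    apply (convex_Icc 0 T).lipschitzOnWith_of_nnnorm_hasDerivWithin_le hd
    intro x hx
    rw [← NNReal.coe_le_coe, coe_nnnorm, Real.coe_toNNReal _ hC0]
    exact hC x hx
  apply LipschitzOnWith.absolutelyContinuousOnInterval (K := C.toNNReal)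
  rwa [uIcc_of_le hT]

/-- The variation of constants formula for the velocity of a scalar damped oscillator. -/
lemma scalar_repr' {c l : ℝ} {G h : ℝ → ℝ} (hG0 : G 0 = 0) (hh0 : h 0 = 1)
    (hGd0 : ∀ t, HasDerivAt G (h t) t) (hhd0 : ∀ t, HasDerivAt h (-c * h t - l * G t) t)
    {z w φ : ℝ → ℝ}
    (hz : ∀ t, 0 ≤ t → HasDerivWithinAt z (w t) (Ici 0) t)
    (hw : ∀ T, 0 < T → AbsolutelyContinuousOnInterval w 0 T)
    (heq : ∀ᵐ t ∂(volume : Measure ℝ), 0 < t → HasDerivAt w (φ t - c * w t - l * z t) t)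
    {T : ℝ} (hT : 0 < T) :
    w T = h T * w 0 - l * (G T * z 0) + ∫ s in (0 : ℝ)..T, h (T - s) * φ s := by
  have hch : Continuous h := cont_of_hasDeriv hhd0
  have hcG : Continuous G := cont_of_hasDeriv hGd0
  have hrev : ∀ s : ℝ, HasDerivAt (fun s => T - s) (-1) s := fun s => by
    simpa using (hasDerivAt_id s).const_sub T
  have hhd : ∀ s, HasDerivAt (fun s => h (T - s)) ((-c * h (T - s) - l * G (T - s)) * (-1)) s :=
    fun s => (hhd0 (T - s)).comp s (hrev s)
  have hGd : ∀ s, HasDerivAt (fun s => G (T - s)) (h (T - s) * (-1)) s :=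
    fun s => (hGd0 (T - s)).comp s (hrev s)
  have hwc : ContinuousOn w (Icc 0 T) := by
    have := (hw T hT).continuousOn
    rwa [uIcc_of_le hT.le] at this
  have hach : AbsolutelyContinuousOnInterval (fun s => h (T - s)) 0 T :=
    ac_of_deriv hT.le (fun t _ => (hhd t).hasDerivWithinAt) (by fun_prop)
  have hacG : AbsolutelyContinuousOnInterval (fun s => G (T - s)) 0 T :=
    ac_of_deriv hT.le (fun t _ => (hGd t).hasDerivWithinAt) (by fun_prop)
  have hacz : AbsolutelyContinuousOnInterval z 0 T :=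
    ac_of_deriv hT.le (fun t ht => (hz t ht.1).mono Icc_subset_Ici_self) hwc
  set Φ : ℝ → ℝ := fun s => h (T - s) * w s - l * (G (T - s) * z s) with hΦ
  have hacΦ : AbsolutelyContinuousOnInterval Φ 0 T :=
    (hach.mul (hw T hT)).sub ((hacG.mul hacz).const_mul l)
  have hftc := hacΦ.integral_deriv_eq_sub
  have hcongr : ∫ s in (0 : ℝ)..T, deriv Φ s = ∫ s in (0 : ℝ)..T, h (T - s) * φ s := by
    apply intervalIntegral.integral_congr_ae
    filter_upwards [heq] with s hs hsT
    rw [uIoc_of_le hT.le] at hsT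
    have h1 := hs hsT.1
    have h2 : HasDerivAt z (w s) s := (hz s hsT.1.le).hasDerivAt (Ici_mem_nhds hsT.1)
    have h3 := ((hhd s).mul h1).sub (((hGd s).mul h2).const_mul l)
    have h4 : HasDerivAt Φ (h (T - s) * φ s) s := by
      refine HasDerivAt.congr_deriv h3 ?_
      ring
    exact h4.deriv
  rw [hcongr] at hftc
  have e1 : Φ T = w T := by simp [hΦ, hh0, hG0]
  have e2 : Φ 0 = h T * w 0 - l * (G T * z 0) := by simp [hΦ]
  rw [e1, e2] at hftc
  linarith

/-- The variation of constants formula for the velocity of a scalar damped oscillator. -/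
lemma scalar_repr {c l : ℝ} {G h : ℝ → ℝ} (hk : IsKernel c l G h) {z w φ : ℝ → ℝ}
    (hz : ∀ t, 0 ≤ t → HasDerivWithinAt z (w t) (Ici 0) t)
    (hw : ∀ T, 0 < T → AbsolutelyContinuousOnInterval w 0 T)
    (heq : ∀ᵐ t ∂(volume : Measure ℝ), 0 < t → HasDerivAt w (φ t - c * w t - l * z t) t)
    {T : ℝ} (hT : 0 < T) :
    w T = h T * w 0 - l * (G T * z 0) + ∫ s in (0 : ℝ)..T, h (T - s) * φ s :=
  scalar_repr' hk.G_zero hk.h_zero hk.hasDeriv_G hk.hasDeriv_h hz hw heq hT

end Pool.Agent.Lib.MP_38ba9c_an
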