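import Mathlib
import Pool.Agent.Lib.MP_38ba9c_an.Kernel
import Pool.Agent.Lib.MP_38ba9c_an.Repr
import Pool.Agent.Lib.MP_38ba9c_an.Defs

open Filter MeasureTheory Set Topology intervalIntegral
open scoped ENNReal InnerProductSpace

namespace Pool.Agent.Lib.MP_38ba9c_an

/-- Existence of solutions of the scalar equation with zero initial data, overdamped case. -/
lemma exists_scalar {α β : ℝ} (hab : α < β) {g : ℝ → ℝ} (hg : LocallyIntegrable g volume) :
    ∃ z w : ℝ → ℝ, z 0 = 0 ∧ w 0 = 0 ∧ (∀ t, HasDerivAt z (w t) t) ∧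
      (∀ T, AbsolutelyContinuousOnInterval w 0 T) ∧
      ∀ᵐ t ∂(volume : Measure ℝ), HasDerivAt w (g t - (α + β) * w t - α * β * z t) t := by
  set y : ℝ → ℝ → ℝ := fun a t => Real.exp (-a * t) * ∫ s in (0 : ℝ)..t, Real.exp (a * s) * g s
    with hy
  have hint : ∀ a : ℝ, LocallyIntegrable (fun s => Real.exp (a * s) * g s) volume := by
    intro a
    exact hg.continuous_mul (by fun_prop)
  have hii : ∀ a x1 x2 : ℝ, IntervalIntegrable (fun s => Real.exp (a * s) * g s) volume x1 x2 := by
    intro a x1 x2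
    exact intervalIntegrable_iff.mpr
      (((hint a).integrableOn_isCompact isCompact_uIcc).mono_set uIoc_subset_uIcc)
  have hexp : ∀ a t : ℝ, HasDerivAt (fun t : ℝ => Real.exp (-a * t)) (Real.exp (-a * t) * (-a)) t := by
    intro a t
    have h1 : HasDerivAt (fun t : ℝ => -a * t) (-a * 1) t := (hasDerivAt_id t).const_mul (-a)
    refine HasDerivAt.congr_deriv h1.exp ?_
    ring
  have hyd : ∀ a, ∀ᵐ t ∂(volume : Measure ℝ), HasDerivAt (y a) (g t - a * y a t) t := by
    intro a
    filter_upwards [_root_.LocallyIntegrable.ae_hasDerivAt_integral (hint a)] with t ht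
    have h1 := (hexp a t).mul (ht 0)
    refine HasDerivAt.congr_deriv h1 ?_
    simp only [hy]
    have : Real.exp (-a * t) * Real.exp (a * t) = 1 := by
      rw [← Real.exp_add]; simp
    calc _ = (Real.exp (-a * t) * Real.exp (a * t)) * g t -
          a * (Real.exp (-a * t) * ∫ s in (0 : ℝ)..t, Real.exp (a * s) * g s) := by ring
      _ = _ := by rw [this]; ring
  have hyac : ∀ a T, AbsolutelyContinuousOnInterval (y a) 0 T := by
    intro a T
    have h1 : AbsolutelyContinuousOnInterval (fun t : ℝ => Real.exp (-a * t)) 0 T := by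
      have h2 : ContDiff ℝ 1 (fun t : ℝ => Real.exp (-a * t)) := by fun_prop
      exact h2.contDiffOn.absolutelyContinuousOnInterval
    exact h1.mul ((hii a 0 T).absolutelyContinuousOnInterval_intervalIntegral left_mem_uIcc)
  have hyc : ∀ a, Continuous (y a) := by
    intro a
    exact (by fun_prop : Continuous fun t : ℝ => Real.exp (-a * t)).mul
      (intervalIntegral.continuous_primitive (hii a) 0)
  have hba : β - α ≠ 0 := by linarith
  set z : ℝ → ℝ := fun t => (y α t - y β t) / (β - α) with hz
  set w : ℝ → ℝ := fun t => (β * y β t - α * y α t) / (β - α) with hw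
  have hzac : ∀ T, AbsolutelyContinuousOnInterval z 0 T := by
    intro T
    have h1 := (((hyac α T).sub (hyac β T)).const_mul (β - α)⁻¹)
    have h2 : z = fun x => (β - α)⁻¹ * (y α - y β) x := by
      funext x; simp only [hz, Pi.sub_apply]; rw [div_eq_inv_mul]
    rw [h2]; exact h1
  have hwac : ∀ T, AbsolutelyContinuousOnInterval w 0 T := by
    intro T
    have h1 := ((((hyac β T).const_mul β).sub ((hyac α T).const_mul α)).const_mul (β - α)⁻¹)
    have h2 : w = fun x => (β - α)⁻¹ * ((fun x => β * y β x) - (fun x => α * y α x)) x := by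
      funext x; simp only [hw, Pi.sub_apply]; rw [div_eq_inv_mul]
    rw [h2]; exact h1
  have hwc : Continuous w := ((continuous_const.mul (hyc β)).sub
    (continuous_const.mul (hyc α))).div_const _
  have hzd : ∀ᵐ t ∂(volume : Measure ℝ), HasDerivAt z (w t) t := by
    filter_upwards [hyd α, hyd β] with t h1 h2
    refine HasDerivAt.congr_deriv ((h1.sub h2).div_const (β - α)) ?_
    simp only [hw]; congr 1; ring
  have hwd : ∀ᵐ t ∂(volume : Measure ℝ), HasDerivAt w (g t - (α + β) * w t - α * β * z t) t := by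
    filter_upwards [hyd α, hyd β] with t h1 h2
    refine HasDerivAt.congr_deriv (((h2.const_mul β).sub (h1.const_mul α)).div_const (β - α)) ?_
    simp only [hw, hz]
    field_simp
    ring
  have hz0 : z 0 = 0 := by simp [hz, hy]
  have hw0 : w 0 = 0 := by simp [hw, hy]
  have hzint : ∀ t, z t = ∫ s in (0 : ℝ)..t, w s := by
    intro t
    have h1 := (hzac t).integral_deriv_eq_sub
    rw [hz0, sub_zero] at h1
    rw [← h1]
    apply intervalIntegral.integral_congr_ae
    filter_upwards [hzd] with s hs _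
    exact hs.deriv
  refine ⟨z, w, hz0, hw0, ?_, hwac, hwd⟩
  intro t
  have h1 : HasDerivAt (fun t => ∫ s in (0 : ℝ)..t, w s) (w t) t :=
    intervalIntegral.integral_hasDerivAt_right (hwc.intervalIntegrable _ _)
      hwc.aestronglyMeasurable.stronglyMeasurableAtFilter hwc.continuousAt
  have h2 : z = fun t => ∫ s in (0 : ℝ)..t, w s := funext hzint
  rw [h2]; exact h1

lemma integral_congr_Ioo' {f g : ℝ → ℝ} {a b : ℝ} (hab : a ≤ b) (h : ∀ t ∈ Ioo a b, f t = g t) :
    ∫ t in a..b, f t = ∫ t in a..b, g t := by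
  apply intervalIntegral.integral_congr_ae
  have h1 : ∀ᵐ t ∂(volume : Measure ℝ), t ≠ b := by simp [ae_iff, measure_singleton]
  filter_upwards [h1] with t ht ht2
  rw [uIoc_of_le hab] at ht2
  exact h t ⟨ht2.1, lt_of_le_of_ne ht2.2 ht⟩

end Pool.Agent.Lib.MP_38ba9c_an
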