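import Mathlib
import Pool.Agent.Lib.MP_38ba9c_an.Kernel
import Pool.Agent.Lib.MP_38ba9c_an.Repr
import Pool.Agent.Lib.MP_38ba9c_an.Defs
import Pool.Agent.Lib.MP_38ba9c_an.Lower

open Filter MeasureTheory Set Topology intervalIntegral
open scoped ENNReal InnerProductSpace

namespace Pool.Agent.Lib.MP_38ba9c_an

/-- Overdamped impulse response. -/
noncomputable def Gov (α β t : ℝ) : ℝ := (Real.exp (-α * t) - Real.exp (-β * t)) / (β - α)

/-- Derivative of the overdamped impulse response. -/
noncomputable def hov (α β t : ℝ) : ℝ :=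
  (β * Real.exp (-β * t) - α * Real.exp (-α * t)) / (β - α)

/-- The scalar forcing profile, as a function of the time to go. -/
noncomputable def prof (r τ0 a e τ : ℝ) : ℝ :=
  if τ < τ0 then r else if τ ∈ Ico a e then -1 else 0

lemma Gov_zero (α β : ℝ) : Gov α β 0 = 0 := by simp [Gov]

lemma hov_cont (α β : ℝ) : Continuous (hov α β) := by
  unfold hov
  fun_prop

lemma Gov_deriv (α β t : ℝ) : HasDerivAt (Gov α β) (hov α β t) t := over_deriv t

lemma integral_hov (α β a b : ℝ) : ∫ t in a..b, hov α β t = Gov α β b - Gov α β a :=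
  integral_eq_sub_of_hasDerivAt (fun t _ => Gov_deriv α β t) ((hov_cont α β).intervalIntegrable _ _)

lemma prof_meas (r τ0 a e : ℝ) : Measurable (prof r τ0 a e) := by
  unfold prof
  refine Measurable.ite (measurableSet_Iio) measurable_const ?_
  exact Measurable.ite measurableSet_Ico measurable_const measurable_const

lemma prof_abs_le {r τ0 a e : ℝ} (hr : 0 ≤ r) (hr1 : r ≤ 1) (τ : ℝ) : |prof r τ0 a e τ| ≤ 1 := by
  unfold prof
  split_ifs
  · rwa [abs_of_nonneg hr]
  · simp
  · simp

lemma ii_mul {g ψ : ℝ → ℝ} (hg : Continuous g) (hm : Measurable ψ) (hb : ∀ x, |ψ x| ≤ 1)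
    (a b : ℝ) : IntervalIntegrable (fun x => g x * ψ x) volume a b := by
  apply IntervalIntegrable.mono_fun (g := fun x => g x * ψ x) (f := g)
    (hg.intervalIntegrable a b)
  · exact (hg.measurable.mul hm).aestronglyMeasurable
  · filter_upwards with x
    rw [norm_mul]
    calc ‖g x‖ * ‖ψ x‖ ≤ ‖g x‖ * 1 := by
          gcongr
          exact hb x
      _ = ‖g x‖ := mul_one _

lemma tail_bound {α β P Q : ℝ} (hα : 0 < α) (hab : α < β) (hPQ : P ≤ Q) {ψ : ℝ → ℝ}
    (hb : ∀ x, |ψ x| ≤ 1) :
    |∫ τ in P..Q, hov α β τ * ψ τ| ≤ (Real.exp (-β * P) + Real.exp (-α * P)) / (β - α) := by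
  have hba : 0 < β - α := by linarith
  have hβ : 0 < β := by linarith
  have hd : ∀ t : ℝ, HasDerivAt (fun t => -(Real.exp (-β * t) + Real.exp (-α * t)) / (β - α))
      ((β * Real.exp (-β * t) + α * Real.exp (-α * t)) / (β - α)) t := by
    intro t
    have h1 : HasDerivAt (fun t : ℝ => -α * t) (-α * 1) t := (hasDerivAt_id t).const_mul (-α)
    have h2 : HasDerivAt (fun t : ℝ => -β * t) (-β * 1) t := (hasDerivAt_id t).const_mul (-β)
    refine HasDerivAt.congr_deriv ((h2.exp.add h1.exp).neg.div_const (β - α)) ?_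
    ring
  have h1 : ‖∫ τ in P..Q, hov α β τ * ψ τ‖ ≤
      ∫ τ in P..Q, (β * Real.exp (-β * τ) + α * Real.exp (-α * τ)) / (β - α) := by
    apply intervalIntegral.norm_integral_le_of_norm_le hPQ
    · filter_upwards with s _
      rw [norm_mul]
      have h2 : ‖hov α β s‖ ≤ (β * Real.exp (-β * s) + α * Real.exp (-α * s)) / (β - α) := by
        unfold hov
        rw [norm_div, Real.norm_of_nonneg hba.le]
        gcongr
        have e1 : 0 < β * Real.exp (-β * s) := by positivity
        have e2 : 0 < α * Real.exp (-α * s) := by positivity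
        rw [Real.norm_eq_abs, abs_le]
        constructor <;> linarith
      calc ‖hov α β s‖ * ‖ψ s‖ ≤ ‖hov α β s‖ * 1 := by
            gcongr
            exact hb s
        _ ≤ _ := by rw [mul_one]; exact h2
    · apply Continuous.intervalIntegrable
      fun_prop
  rw [integral_eq_sub_of_hasDerivAt (fun t _ => hd t) (by
    apply Continuous.intervalIntegrable
    fun_prop)] at h1
  have h3 : 0 ≤ (Real.exp (-β * Q) + Real.exp (-α * Q)) / (β - α) := by positivity
  calc _ ≤ _ := h1
    _ = (Real.exp (-β * P) + Real.exp (-α * P)) / (β - α) -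
        (Real.exp (-β * Q) + Real.exp (-α * Q)) / (β - α) := by ring
    _ ≤ _ := by linarith

lemma integral_prof {α β r τ0 a e P : ℝ} (hr : 0 ≤ r) (hr1 : r ≤ 1)
    (hτ0 : 0 < τ0) (ha : τ0 ≤ a) (hae : a ≤ e) (heP : e ≤ P) :
    ∫ τ in (0 : ℝ)..P, hov α β τ * prof r τ0 a e τ =
      r * Gov α β τ0 + (Gov α β a - Gov α β e) := by
  have hii : ∀ x y, IntervalIntegrable (fun τ => hov α β τ * prof r τ0 a e τ) volume x y :=
    fun x y => ii_mul (hov_cont α β) (prof_meas r τ0 a e) (prof_abs_le hr hr1) x y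
  rw [← integral_add_adjacent_intervals (hii 0 τ0) (hii τ0 P),
    ← integral_add_adjacent_intervals (hii τ0 a) (hii a P),
    ← integral_add_adjacent_intervals (hii a e) (hii e P)]
  have i1 : ∫ τ in (0 : ℝ)..τ0, hov α β τ * prof r τ0 a e τ = r * Gov α β τ0 := by
    rw [integral_congr_Ioo' (g := fun τ => r * hov α β τ) hτ0.le]
    · rw [intervalIntegral.integral_const_mul, integral_hov, Gov_zero, sub_zero]
    · intro t ht
      have : prof r τ0 a e t = r := by simp [prof, ht.2]
      rw [this, mul_comm]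
  have i2 : ∫ τ in τ0..a, hov α β τ * prof r τ0 a e τ = 0 := by
    rw [integral_congr_Ioo' (g := fun τ => 0) ha]
    · simp
    · intro t ht
      have : prof r τ0 a e t = 0 := by
        simp [prof, not_lt.mpr ht.1.le, not_le.mpr ht.2]
      rw [this, mul_zero]
  have i3 : ∫ τ in a..e, hov α β τ * prof r τ0 a e τ = Gov α β a - Gov α β e := by
    rw [integral_congr_Ioo' (g := fun τ => - hov α β τ) hae]
    · rw [intervalIntegral.integral_neg, integral_hov]; ring
    · intro t ht
      have : prof r τ0 a e t = -1 := by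
        simp [prof, not_lt.mpr (ha.trans ht.1.le), ht.1.le, ht.2]
      rw [this]; ring
  have i4 : ∫ τ in e..P, hov α β τ * prof r τ0 a e τ = 0 := by
    rw [integral_congr_Ioo' (g := fun τ => 0) heP]
    · simp
    · intro t ht
      have : prof r τ0 a e t = 0 := by
        simp [prof, not_lt.mpr (ha.trans (hae.trans ht.1.le)), not_lt.mpr ht.1.le]
      rw [this, mul_zero]
  rw [i1, i2, i3, i4]
  ring

/-- The periodic forcing. -/
noncomputable def per (r τ0 a e P t : ℝ) : ℝ := prof r τ0 a e (P * Int.fract (-t / P))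

lemma per_meas (r τ0 a e P : ℝ) : Measurable (per r τ0 a e P) := by
  unfold per
  apply (prof_meas r τ0 a e).comp
  apply Measurable.const_mul
  apply measurable_fract.comp
  fun_prop

lemma periodic_lower {α β r τ0 a e P : ℝ} (hα : 0 < α) (hab : α < β) (hr : 0 ≤ r) (hr1 : r ≤ 1)
    (hτ0 : 0 < τ0) (ha : τ0 ≤ a) (hae : a ≤ e) (heP : e ≤ P) {n : ℕ} (hn : 1 ≤ n) :
    r * Gov α β τ0 + (Gov α β a - Gov α β e) -
        (Real.exp (-β * P) + Real.exp (-α * P)) / (β - α) ≤
      ∫ s in (0 : ℝ)..n * P, hov α β (n * P - s) * per r τ0 a e P s := by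
  have hP : 0 < P := by linarith
  have hP' : P ≠ 0 := hP.ne'
  set ψ : ℝ → ℝ := fun τ => prof r τ0 a e (P * Int.fract (τ / P)) with hψ
  have hψm : Measurable ψ := by
    apply (prof_meas r τ0 a e).comp
    apply Measurable.const_mul
    apply measurable_fract.comp
    fun_prop
  have hψb : ∀ x, |ψ x| ≤ 1 := fun x => prof_abs_le hr hr1 _
  have h1 : ∫ s in (0 : ℝ)..n * P, hov α β (n * P - s) * per r τ0 a e P s =
      ∫ τ in (0 : ℝ)..n * P, hov α β τ * ψ τ := by
    have h2 := intervalIntegral.integral_comp_sub_left (a := 0) (b := n * P)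
      (fun τ => hov α β τ * ψ τ) (n * P)
    simp only [sub_self, sub_zero] at h2
    rw [← h2]
    apply integral_congr
    intro s _
    simp only [hψ, per]
    congr 3
    rw [show (n * P - s) / P = -s / P + (n : ℝ) by field_simp; ring, Int.fract_add_natCast]
  have hii : ∀ x y, IntervalIntegrable (fun τ => hov α β τ * ψ τ) volume x y :=
    fun x y => ii_mul (hov_cont α β) hψm hψb x y
  have hPn : P ≤ n * P := by
    have : (1 : ℝ) ≤ n := by exact_mod_cast hn
    nlinarith
  rw [h1, ← integral_add_adjacent_intervals (hii 0 P) (hii P (n * P))]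
  have h3 : ∫ τ in (0 : ℝ)..P, hov α β τ * ψ τ = ∫ τ in (0 : ℝ)..P, hov α β τ * prof r τ0 a e τ := by
    apply integral_congr_Ioo' hP.le
    intro t ht
    simp only [hψ]
    have h4 : Int.fract (t / P) = t / P := by
      rw [Int.fract_eq_self]
      exact ⟨div_nonneg ht.1.le hP.le, (div_lt_one hP).mpr ht.2⟩
    rw [h4]
    congr 2
    field_simp
  rw [h3, integral_prof hr hr1 hτ0 ha hae heP]
  have h5 := tail_bound hα hab hPn hψb
  have h6 := (abs_le.mp h5).1
  linarith

end Pool.Agent.Lib.MP_38ba9c_an
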