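import Mathlib
import Pool.Agent.Lib.MP_38ba9c_an.Kernel
import Pool.Agent.Lib.MP_38ba9c_an.Repr
import Pool.Agent.Lib.MP_38ba9c_an.Defs
import Pool.Agent.Lib.MP_38ba9c_an.Lower2

open Filter MeasureTheory Set Topology intervalIntegral
open scoped ENNReal InnerProductSpace

namespace Pool.Agent.Lib.MP_38ba9c_an

lemma toEuclideanLin_diagonal_apply {d : ℕ} (l : Fin d → ℝ) (x : EuclideanSpace ℝ (Fin d))
    (i : Fin d) : (Matrix.toEuclideanLin (Matrix.diagonal l) x) i = l i * x i := by
  simp [Matrix.toEuclideanLin, Matrix.mulVec_diagonal]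

/-- The vector with coordinates `x i`. -/
noncomputable def vec {d : ℕ} (x : Fin d → ℝ) : EuclideanSpace ℝ (Fin d) := WithLp.toLp 2 x

@[simp] lemma vec_apply {d : ℕ} (x : Fin d → ℝ) (i : Fin d) : vec x i = x i := rfl

lemma norm_vec_sq {d : ℕ} (x : Fin d → ℝ) : ‖vec x‖ ^ 2 = ∑ i, x i ^ 2 := by
  rw [EuclideanSpace.norm_sq_eq]
  simp

lemma vec_hasDerivAt {d : ℕ} {x : ℝ → Fin d → ℝ} {x' : Fin d → ℝ} {t : ℝ}
    (h : HasDerivAt x x' t) : HasDerivAt (fun t => vec (x t)) (vec x') t :=
  ((EuclideanSpace.equiv (Fin d) ℝ).symm.toContinuousLinearMap).hasFDerivAt.comp_hasDerivAt t h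

lemma sum_le_sqrt_mul_norm {d : ℕ} (x : Fin d → ℝ) : ∑ i, x i ≤ Real.sqrt d * ‖vec x‖ := by
  have h1 : (∑ i, x i) ^ 2 ≤ d * ∑ i, x i ^ 2 := by
    have := sq_sum_le_card_mul_sum_sq (s := (Finset.univ : Finset (Fin d))) (f := x)
    simpa using this
  rw [← norm_vec_sq] at h1
  have h2 : (∑ i, x i) ^ 2 ≤ (Real.sqrt d * ‖vec x‖) ^ 2 := by
    rw [mul_pow, Real.sq_sqrt (Nat.cast_nonneg d)]
    exact h1
  exact (le_abs_self _).trans (abs_le_of_sq_le_sq h2 (by positivity))

/-- The system with diagonal matrix, componentwise. -/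
lemma exists_solution {d : ℕ} {c : ℝ} {α β : Fin d → ℝ}
    (hab : ∀ i, α i < β i) (hsum : ∀ i, α i + β i = c) {g : Fin d → ℝ → ℝ}
    (hg : ∀ i, LocallyIntegrable (g i) volume) :
    ∃ z w : Fin d → ℝ → ℝ, (∀ i, z i 0 = 0) ∧ (∀ i, w i 0 = 0) ∧
      (∀ i t, HasDerivAt (z i) (w i t) t) ∧
      (∀ i T, AbsolutelyContinuousOnInterval (w i) 0 T) ∧
      (∀ i, ∀ᵐ t ∂(volume : Measure ℝ),
        HasDerivAt (w i) (g i t - c * w i t - α i * β i * z i t) t) ∧
      IsSolution (Matrix.diagonal fun i => α i * β i) c (fun t => vec fun i => g i t)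
        (fun t => vec fun i => z i t) (fun t => vec fun i => w i t) := by
  choose z w hz0 hw0 hz hw heq using fun i => exists_scalar (hab i) (hg i)
  have heq' : ∀ i, ∀ᵐ t ∂(volume : Measure ℝ),
        HasDerivAt (w i) (g i t - c * w i t - α i * β i * z i t) t := by
    intro i
    filter_upwards [heq i] with t ht
    rw [hsum i] at ht
    exact ht
  refine ⟨z, w, hz0, hw0, hz, hw, heq', ?_⟩
  refine ⟨?_, ?_, ?_⟩
  · intro t _
    have h1 : HasDerivAt (fun t => fun i => z i t) (fun i => w i t) t :=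
      hasDerivAt_pi.mpr fun i => hz i t
    exact (vec_hasDerivAt h1).hasDerivWithinAt
  · intro T _
    have h1 : AbsolutelyContinuousOnInterval (fun t => ∑ i, w i t • vec (Pi.single i (1 : ℝ))) 0 T := by
      have key : ∀ s : Finset (Fin d),
          AbsolutelyContinuousOnInterval (fun t => ∑ i ∈ s, w i t • vec (Pi.single i (1 : ℝ))) 0 T := by
        intro s
        induction s using Finset.induction_on with
        | empty =>
          simp only [Finset.sum_empty]
          exact (LipschitzWith.const (0 : EuclideanSpace ℝ (Fin d))).lipschitzOnWith.absolutelyContinuousOnInterval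
        | insert i s his ih =>
          simp only [Finset.sum_insert his]
          refine AbsolutelyContinuousOnInterval.add ?_ ih
          exact ac_lipschitz_comp (g := fun x : ℝ => x • vec (Pi.single i (1 : ℝ)))
            (C := ‖(ContinuousLinearMap.toSpanSingleton ℝ (vec (Pi.single i (1 : ℝ))) : ℝ →L[ℝ] EuclideanSpace ℝ (Fin d))‖₊)
            (ContinuousLinearMap.lipschitz (ContinuousLinearMap.toSpanSingleton ℝ (vec (Pi.single i (1 : ℝ))))) (hw i T)
      exact key Finset.univ
    have h2 : (fun t => vec fun i => w i t) = fun t => ∑ i, w i t • vec (Pi.single i (1 : ℝ)) := by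
      funext t
      ext j
      simp [Finset.sum_apply, Pi.single_apply]
    rw [h2]
    exact h1
  · have h1 : ∀ᵐ t ∂(volume : Measure ℝ), ∀ i,
        HasDerivAt (w i) (g i t - c * w i t - α i * β i * z i t) t := by
      rw [ae_all_iff]
      exact heq'
    filter_upwards [h1] with t ht _
    have h2 : HasDerivAt (fun t => fun i => w i t)
        (fun i => g i t - c * w i t - α i * β i * z i t) t :=
      hasDerivAt_pi.mpr fun i => ht i
    refine HasDerivAt.congr_deriv (vec_hasDerivAt h2) ?_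
    ext i
    simp [toEuclideanLin_diagonal_apply]

end Pool.Agent.Lib.MP_38ba9c_an
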