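import Mathlib
import Pool.Agent.Lib.MP_38ba9c_an.Kernel
import Pool.Agent.Lib.MP_38ba9c_an.Repr
import Pool.Agent.Lib.MP_38ba9c_an.Defs
import Pool.Agent.Lib.MP_38ba9c_an.Lower3

open Filter MeasureTheory Set Topology intervalIntegral
open scoped ENNReal InnerProductSpace

namespace Pool.Agent.Lib.MP_38ba9c_an

lemma per_abs_le {r τ0 a e P : ℝ} (hr : 0 ≤ r) (hr1 : r ≤ 1) (t : ℝ) :
    |per r τ0 a e P t| ≤ 1 := prof_abs_le hr hr1 _

/-- At each time at most one of the windows is active. -/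
lemma sum_prof_sq_le {d : ℕ} (hd : 0 < d) {τ0 : ℝ} {a e : Fin d → ℝ}
    (hdisj : ∀ i j, i < j → e i ≤ a j) (τ : ℝ) :
    ∑ i, prof (1 / Real.sqrt d) τ0 (a i) (e i) τ ^ 2 ≤ 1 := by
  have hd' : (0 : ℝ) < d := by exact_mod_cast hd
  by_cases h : τ < τ0
  · have : ∀ i, prof (1 / Real.sqrt d) τ0 (a i) (e i) τ = 1 / Real.sqrt d := by
      intro i; simp [prof, h]
    simp only [this, div_pow, one_pow, Real.sq_sqrt hd'.le]
    simp [hd'.ne']
  · have h1 : ∀ i, prof (1 / Real.sqrt d) τ0 (a i) (e i) τ ^ 2 =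
        if τ ∈ Ico (a i) (e i) then 1 else 0 := by
      intro i
      unfold prof
      rw [if_neg h]
      split_ifs <;> simp
    simp only [h1]
    by_cases h2 : ∃ i, τ ∈ Ico (a i) (e i)
    · obtain ⟨i, hi⟩ := h2
      rw [Finset.sum_eq_single i]
      · simp [hi]
      · intro j _ hji
        rw [if_neg]
        intro hj
        rcases lt_or_gt_of_ne hji with h3 | h3
        · have := hdisj j i h3
          linarith [hj.2, hi.1]
        · have := hdisj i j h3
          linarith [hi.2, hj.1]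
      · simp
    · push Not at h2
      rw [Finset.sum_eq_zero]
      · norm_num
      · intro i _
        rw [if_neg (h2 i)]

lemma lower_P {d : ℕ} (hd : 0 < d) {c : ℝ} {α β : Fin d → ℝ} (hα : ∀ i, 0 < α i)
    (hab : ∀ i, α i < β i) (hsum : ∀ i, α i + β i = c) {τ0 : ℝ} (hτ0 : 0 < τ0)
    {a e : Fin d → ℝ} (ha : ∀ i, τ0 ≤ a i) (hae : ∀ i, a i ≤ e i)
    (hdisj : ∀ i j, i < j → e i ≤ a j) {θ : ℝ}
    (h1 : ∀ i, θ ≤ Gov (α i) (β i) τ0)
    (h2 : ∀ i, θ ≤ Gov (α i) (β i) (a i) - Gov (α i) (β i) (e i)) {k : ℝ}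
    (hk : Admissible (Matrix.diagonal fun i => α i * β i) c k) {P : ℝ} (hP : ∀ i, e i ≤ P) :
    Real.sqrt d * ((1 + Real.sqrt d) * θ) -
      ∑ i, (Real.exp (-(β i) * P) + Real.exp (-(α i) * P)) / (β i - α i) ≤ Real.sqrt d * k := by
  have hd' : (0 : ℝ) < d := by exact_mod_cast hd
  have hsq : 0 < Real.sqrt d := Real.sqrt_pos.mpr hd'
  have hP0 : 0 < P := by
    have := hP ⟨0, hd⟩
    have := ha ⟨0, hd⟩
    have := hae ⟨0, hd⟩
    linarith
  set r : ℝ := 1 / Real.sqrt d with hr
  have hr0 : 0 ≤ r := by positivity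
  have hr1 : r ≤ 1 := by
    rw [hr, div_le_one hsq]
    rw [Real.one_le_sqrt]
    exact_mod_cast hd
  set g : Fin d → ℝ → ℝ := fun i => per r τ0 (a i) (e i) P with hg
  have hgm : ∀ i, Measurable (g i) := fun i => per_meas _ _ _ _ _
  have hgb : ∀ i t, |g i t| ≤ 1 := fun i t => per_abs_le hr0 hr1 t
  have hgl : ∀ i, LocallyIntegrable (g i) volume := by
    intro i
    have h3 : LocallyIntegrable (fun _ : ℝ => (1 : ℝ)) volume := locallyIntegrable_const _
    apply h3.mono (hgm i).aestronglyMeasurable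
    filter_upwards with t
    simpa using hgb i t
  obtain ⟨z, w, hz0, hw0, hz, hw, heq, hsol⟩ := exists_solution hab hsum hgl
  set f : ℝ → EuclideanSpace ℝ (Fin d) := fun t => vec fun i => g i t with hf
  have hfn : ∀ t, ‖f t‖ ≤ 1 := by
    intro t
    have h3 : ‖f t‖ ^ 2 ≤ 1 := by
      rw [hf, norm_vec_sq]
      exact sum_prof_sq_le hd hdisj _
    exact (sq_le_one_iff₀ (norm_nonneg _)).mp h3
  have hfm : Measurable f := by
    have h3 : Measurable fun t => fun i => g i t := measurable_pi_lambda _ hgm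
    exact (WithLp.measurable_toLp 2 _).comp h3
  have hfl : LocallyIntegrableOn f (Ici 0) volume := by
    have h3 : LocallyIntegrable (fun _ : ℝ => (1 : ℝ)) volume := locallyIntegrable_const _
    have h4 : LocallyIntegrable f volume := by
      apply h3.mono hfm.aestronglyMeasurable
      filter_upwards with t
      simpa using hfn t
    exact h4.locallyIntegrableOn _
  have hess : essLimsup f ≤ 1 := by
    unfold essLimsup
    apply Filter.limsup_le_of_le (by isBoundedDefault)
    filter_upwards with t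
    rw [← ofReal_norm]
    exact ENNReal.ofReal_le_one.mpr (hfn t)
  have hlim := hk.2 f _ _ hfl (hess.trans_lt ENNReal.one_lt_top) hsol
  have hlim2 : limsup (fun t => ‖vec fun i => w i t‖ₑ) atTop ≤ ENNReal.ofReal k := by
    calc _ ≤ _ := hlim
      _ ≤ ENNReal.ofReal k * 1 := by gcongr
      _ = _ := mul_one _
  -- lower bound at the times `n P`
  set S : ℝ := ∑ i, (Real.exp (-(β i) * P) + Real.exp (-(α i) * P)) / (β i - α i) with hS
  have hval : ∀ n : ℕ, 1 ≤ n → Real.sqrt d * ((1 + Real.sqrt d) * θ) - S ≤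
      Real.sqrt d * ‖vec fun i => w i (n * P)‖ := by
    intro n hn
    have hnP : 0 < n * P := by
      have : (1 : ℝ) ≤ n := by exact_mod_cast hn
      positivity
    refine le_trans ?_ (sum_le_sqrt_mul_norm _)
    have h3 : ∀ i, r * θ + θ - (Real.exp (-(β i) * P) + Real.exp (-(α i) * P)) / (β i - α i) ≤
        w i (n * P) := by
      intro i
      have h4 := scalar_repr' (c := c) (l := α i * β i) (G := Gov (α i) (β i))
        (h := hov (α i) (β i)) (Gov_zero _ _)
        (by have := hab i; simp [hov, (by linarith : β i - α i ≠ 0)]) (Gov_deriv _ _)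
        (by
          intro t
          have := over_deriv' (hab i) t
          rw [hsum i] at this
          exact this)
        (z := z i) (w := w i) (φ := g i)
        (fun t _ => (hz i t).hasDerivWithinAt) (fun T _ => hw i T)
        (by filter_upwards [heq i] with t ht _; exact ht) hnP
      rw [h4, hw0 i, hz0 i]
      have h5 := periodic_lower (hα i) (hab i) hr0 hr1 hτ0 (ha i) (hae i) (hP i) hn
      have h6 := h1 i
      have h7 := h2 i
      have h8 : r * θ ≤ r * Gov (α i) (β i) τ0 := by gcongr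
      simp only [mul_zero, sub_zero, zero_add]
      linarith
    calc Real.sqrt d * ((1 + Real.sqrt d) * θ) - S = ∑ i : Fin d, (r * θ + θ -
        (Real.exp (-(β i) * P) + Real.exp (-(α i) * P)) / (β i - α i)) := by
          rw [Finset.sum_sub_distrib]
          simp only [Finset.sum_const, Finset.card_univ, Fintype.card_fin, nsmul_eq_mul]
          have h9 : (d : ℝ) = Real.sqrt d * Real.sqrt d := (Real.mul_self_sqrt hd'.le).symm
          have h10 : (d : ℝ) * (r * θ + θ) = Real.sqrt d * ((1 + Real.sqrt d) * θ) := by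
            have h11 : Real.sqrt d * r = 1 := by rw [hr]; field_simp
            calc (d : ℝ) * (r * θ + θ) = Real.sqrt d * (Real.sqrt d * r) * θ +
                Real.sqrt d * Real.sqrt d * θ := by
                  conv_lhs => rw [h9]
                  ring
              _ = _ := by rw [h11]; ring
          rw [h10]
      _ ≤ ∑ i, w i (n * P) := Finset.sum_le_sum fun i _ => h3 i
  have hfreq : ∃ᶠ t in (atTop : Filter ℝ),
      ENNReal.ofReal ((Real.sqrt d * ((1 + Real.sqrt d) * θ) - S) / Real.sqrt d) ≤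
        ‖vec fun i => w i t‖ₑ := by
    rw [Filter.frequently_atTop]
    intro x
    obtain ⟨n, hn⟩ := exists_nat_ge (x / P)
    refine ⟨((max n 1 : ℕ) : ℝ) * P, ?_, ?_⟩
    · have h3 : x ≤ n * P := (div_le_iff₀ hP0).mp hn
      have h4 : (n : ℝ) ≤ ((max n 1 : ℕ) : ℝ) := by exact_mod_cast le_max_left _ _
      have : (n : ℝ) * P ≤ ((max n 1 : ℕ) : ℝ) * P := by gcongr
      linarith
    · rw [← ofReal_norm]
      apply ENNReal.ofReal_le_ofReal
      rw [div_le_iff₀ hsq, mul_comm]
      have := hval (max n 1) (le_max_right _ _)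
      linarith
  have h3 := le_limsup_of_frequently_le' hfreq
  have h4 := h3.trans hlim2
  rw [ENNReal.ofReal_le_ofReal_iff hk.1, div_le_iff₀ hsq] at h4
  linarith

lemma lower_aux {d : ℕ} (hd : 0 < d) {c : ℝ} {α β : Fin d → ℝ} (hα : ∀ i, 0 < α i)
    (hab : ∀ i, α i < β i) (hsum : ∀ i, α i + β i = c) {τ0 : ℝ} (hτ0 : 0 < τ0)
    {a e : Fin d → ℝ} (ha : ∀ i, τ0 ≤ a i) (hae : ∀ i, a i ≤ e i)
    (hdisj : ∀ i j, i < j → e i ≤ a j) {θ : ℝ}
    (h1 : ∀ i, θ ≤ Gov (α i) (β i) τ0)
    (h2 : ∀ i, θ ≤ Gov (α i) (β i) (a i) - Gov (α i) (β i) (e i)) {k : ℝ}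
    (hk : Admissible (Matrix.diagonal fun i => α i * β i) c k) :
    (1 + Real.sqrt d) * θ ≤ k := by
  have hd' : (0 : ℝ) < d := by exact_mod_cast hd
  have hsq : 0 < Real.sqrt d := Real.sqrt_pos.mpr hd'
  have htend : Tendsto (fun P : ℝ => Real.sqrt d * ((1 + Real.sqrt d) * θ) -
      ∑ i, (Real.exp (-(β i) * P) + Real.exp (-(α i) * P)) / (β i - α i)) atTop
      (𝓝 (Real.sqrt d * ((1 + Real.sqrt d) * θ) - ∑ i : Fin d, (0 + 0) / (β i - α i))) := by
    apply Tendsto.const_sub
    apply tendsto_finsetSum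
    intro i _
    have hβ : 0 < β i := (hα i).trans (hab i)
    exact ((tendsto_exp_neg_mul hβ).add (tendsto_exp_neg_mul (hα i))).div_const _
  have hev : ∀ᶠ P : ℝ in atTop, ∀ i, e i ≤ P := by
    rw [Filter.eventually_all]
    intro i
    exact eventually_ge_atTop _
  have h3 := le_of_tendsto htend (by
    filter_upwards [hev] with P hP
    exact lower_P hd hα hab hsum hτ0 ha hae hdisj h1 h2 hk hP)
  simp only [add_zero, zero_div, Finset.sum_const_zero, sub_zero] at h3
  exact le_of_mul_le_mul_left h3 hsq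

end Pool.Agent.Lib.MP_38ba9c_an
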