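import Mathlib
import Pool.Agent.Lib.MP_38ba9c_an.Kernel
import Pool.Agent.Lib.MP_38ba9c_an.Repr
import Pool.Agent.Lib.MP_38ba9c_an.Defs

open Filter MeasureTheory Set Topology intervalIntegral
open scoped ENNReal InnerProductSpace

namespace Pool.Agent.Lib.MP_38ba9c_an

/-- The part of the kernel below the envelope `e^{-c t}`. -/
noncomputable def clip (c : ℝ) (h : ℝ → ℝ) (t : ℝ) : ℝ :=
  max (-Real.exp (-c * t)) (min (h t) (Real.exp (-c * t)))

lemma clip_cont {c : ℝ} {h : ℝ → ℝ} (hh : Continuous h) : Continuous (clip c h) := by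
  unfold clip
  fun_prop

lemma abs_clip_le (c : ℝ) (h : ℝ → ℝ) (t : ℝ) : |clip c h t| ≤ Real.exp (-c * t) := by
  have := Real.exp_pos (-c * t)
  unfold clip
  rw [abs_le]
  constructor
  · exact le_max_left _ _
  · apply max_le
    · linarith
    · exact min_le_right _ _

lemma abs_sub_clip (c : ℝ) (h : ℝ → ℝ) (t : ℝ) :
    |h t - clip c h t| = max (|h t| - Real.exp (-c * t)) 0 := by
  have he := Real.exp_pos (-c * t)
  unfold clip
  set e := Real.exp (-c * t)
  rcases le_total (h t) e with h1 | h1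
  · rw [min_eq_left h1]
    rcases le_total (-e) (h t) with h2 | h2
    · rw [max_eq_right h2]
      have : |h t| ≤ e := abs_le.mpr ⟨h2, h1⟩
      rw [max_eq_right (by linarith)]
      simp
    · rw [max_eq_left h2, abs_of_nonpos (by linarith : h t ≤ 0), abs_of_nonpos (by linarith)]
      rw [max_eq_left (by linarith)]
      ring
  · rw [min_eq_right h1, max_eq_right (by linarith), abs_of_nonneg (by linarith : 0 ≤ h t),
      abs_of_nonneg (by linarith), max_eq_left (by linarith)]

lemma norm_basis_sum_sq {d : ℕ} (b : OrthonormalBasis (Fin d) ℝ (EuclideanSpace ℝ (Fin d)))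
    (x : Fin d → ℝ) : ‖∑ i, x i • b i‖ ^ 2 = ∑ i, x i ^ 2 := by
  rw [← real_inner_self_eq_norm_sq, b.orthonormal.inner_sum]
  simp [sq]

lemma norm_sq_eq_sum_inner {d : ℕ} (b : OrthonormalBasis (Fin d) ℝ (EuclideanSpace ℝ (Fin d)))
    (y : EuclideanSpace ℝ (Fin d)) : ‖y‖ ^ 2 = ∑ i, ⟪b i, y⟫_ℝ ^ 2 := by
  conv_lhs => rw [← b.sum_repr' y]
  exact norm_basis_sum_sq b _

lemma norm_basis_sum_le {d : ℕ} (b : OrthonormalBasis (Fin d) ℝ (EuclideanSpace ℝ (Fin d)))
    {x : Fin d → ℝ} {M : ℝ} (hM : 0 ≤ M) (hx : ∀ i, |x i| ≤ M) :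
    ‖∑ i, x i • b i‖ ≤ Real.sqrt d * M := by
  have h1 : ‖∑ i, x i • b i‖ ^ 2 ≤ (Real.sqrt d * M) ^ 2 := by
    rw [norm_basis_sum_sq, mul_pow, Real.sq_sqrt (Nat.cast_nonneg d)]
    calc ∑ i, x i ^ 2 ≤ ∑ _i : Fin d, M ^ 2 := by
          apply Finset.sum_le_sum
          intro i _
          rw [← sq_abs]
          have := hx i
          have := abs_nonneg (x i)
          gcongr
      _ = d * M ^ 2 := by simp
  have h2 : 0 ≤ Real.sqrt d * M := by positivity
  exact (pow_le_pow_iff_left₀ (norm_nonneg _) h2 two_ne_zero).mp h1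

lemma norm_basis_sum_mul_le {d : ℕ} (b : OrthonormalBasis (Fin d) ℝ (EuclideanSpace ℝ (Fin d)))
    {x : Fin d → ℝ} {M : ℝ} (hM : 0 ≤ M) (hx : ∀ i, |x i| ≤ M) (y : EuclideanSpace ℝ (Fin d)) :
    ‖∑ i, (x i * ⟪b i, y⟫_ℝ) • b i‖ ≤ M * ‖y‖ := by
  have h1 : ‖∑ i, (x i * ⟪b i, y⟫_ℝ) • b i‖ ^ 2 ≤ (M * ‖y‖) ^ 2 := by
    rw [norm_basis_sum_sq b (fun i => x i * ⟪b i, y⟫_ℝ), mul_pow, norm_sq_eq_sum_inner b y,
      Finset.mul_sum]
    apply Finset.sum_le_sum
    intro i _
    rw [mul_pow]
    have h3 : x i ^ 2 ≤ M ^ 2 := by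
      rw [← sq_abs]
      have := abs_nonneg (x i)
      gcongr
      exact hx i
    gcongr
  have h2 : 0 ≤ M * ‖y‖ := by positivity
  exact (pow_le_pow_iff_left₀ (norm_nonneg _) h2 two_ne_zero).mp h1

lemma integral_exp_le {c : ℝ} (hc : 0 < c) (a T : ℝ) :
    ∫ s in a..T, Real.exp (-c * (T - s)) ≤ 1 / c := by
  have hd : ∀ s : ℝ, HasDerivAt (fun s => Real.exp (-c * (T - s)) / c) (Real.exp (-c * (T - s))) s := by
    intro s
    have h1 : HasDerivAt (fun s : ℝ => -c * (T - s)) (-c * (-1)) s := by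
      have : HasDerivAt (fun s : ℝ => T - s) (-1) s := by simpa using (hasDerivAt_id s).const_sub T
      exact this.const_mul (-c)
    refine HasDerivAt.congr_deriv (h1.exp.div_const c) ?_
    field_simp
  rw [integral_eq_sub_of_hasDerivAt (fun s _ => hd s)
    ((by fun_prop : Continuous fun s => Real.exp (-c * (T - s))).intervalIntegrable _ _)]
  simp only [sub_self, mul_zero, Real.exp_zero]
  have : 0 < Real.exp (-c * (T - a)) / c := by positivity
  linarith

/-- `(1 + √d) / c` is an admissible constant. -/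
theorem admissible_upper {d : ℕ} {A : Matrix (Fin d) (Fin d) ℝ} (hA : A.PosDef) {c : ℝ}
    (hc : 0 < c) : Admissible A c ((1 + Real.sqrt d) / c) := by
  refine ⟨by positivity, ?_⟩
  intro f u v hf hF hsol
  -- diagonalisation
  have hsymm : A.IsHermitian := hA.isHermitian
  set b : OrthonormalBasis (Fin d) ℝ (EuclideanSpace ℝ (Fin d)) := hsymm.eigenvectorBasis with hb
  set lam : Fin d → ℝ := hsymm.eigenvalues with hlam
  have hlam0 : ∀ i, 0 < lam i := fun i => hA.eigenvalues_pos i
  have hself : ∀ (x y : EuclideanSpace ℝ (Fin d)),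
      ⟪x, Matrix.toEuclideanLin A y⟫_ℝ = ⟪Matrix.toEuclideanLin A x, y⟫_ℝ := by
    intro x y
    have := (Matrix.isSymmetric_toEuclideanLin_iff.mpr hsymm) x y
    exact this.symm
  have heig : ∀ i, Matrix.toEuclideanLin A (b i) = lam i • b i := by
    intro i
    have h1 := hsymm.mulVec_eigenvectorBasis i
    ext j
    have h2 := congrFun h1 j
    simpa [Matrix.toEuclideanLin, hb, hlam] using h2
  have hinner : ∀ i y, ⟪b i, Matrix.toEuclideanLin A y⟫_ℝ = lam i * ⟪b i, y⟫_ℝ := by
    intro i y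
    rw [hself, heig, real_inner_smul_left]
  choose G h hk using fun i => exists_kernel hc (hlam0 i)
  have hch : ∀ i, Continuous (h i) := fun i => cont_of_hasDeriv (hk i).hasDeriv_h
  -- scalar components
  have hrepr : ∀ i, ∀ T, 0 < T → ⟪b i, v T⟫_ℝ = h i T * ⟪b i, v 0⟫_ℝ -
      lam i * (G i T * ⟪b i, u 0⟫_ℝ) + ∫ s in (0 : ℝ)..T, h i (T - s) * ⟪b i, f s⟫_ℝ := by
    intro i T hT
    apply scalar_repr (hk i) (z := fun t => ⟪b i, u t⟫_ℝ) (w := fun t => ⟪b i, v t⟫_ℝ)
      (φ := fun t => ⟪b i, f t⟫_ℝ) _ _ _ hT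
    · intro t ht
      have h1 := (innerSL ℝ (b i)).hasFDerivAt.comp_hasDerivWithinAt t (hsol.hasDeriv t ht)
      exact h1
    · intro T hT
      exact ac_lipschitz_comp (innerSL ℝ (b i)).lipschitz (hsol.absCont T hT)
    · filter_upwards [hsol.eqn] with t ht ht0
      have h1 := (innerSL ℝ (b i)).hasFDerivAt.comp_hasDerivAt t (ht ht0)
      refine HasDerivAt.congr_deriv h1 ?_
      simp only [innerSL_apply_apply, inner_sub_right, real_inner_smul_right, hinner]
  -- the essential limsup
  set F : ℝ := (essLimsup f).toReal with hFdef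
  have hF0 : 0 ≤ F := ENNReal.toReal_nonneg
  have hFeq : essLimsup f = ENNReal.ofReal F := (ENNReal.ofReal_toReal hF.ne).symm
  -- integrability
  have hfint : ∀ a e : ℝ, 0 ≤ a → a ≤ e → IntervalIntegrable f volume a e := by
    intro a e ha hae
    rw [intervalIntegrable_iff_integrableOn_Icc_of_le hae]
    exact hf.integrableOn_compact_subset (fun x hx => ha.trans hx.1) isCompact_Icc
  have hφint : ∀ i, ∀ a e : ℝ, 0 ≤ a → a ≤ e →
      IntervalIntegrable (fun s => ⟪b i, f s⟫_ℝ) volume a e := by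
    intro i a e ha hae
    have h1 := hfint a e ha hae
    exact ⟨(innerSL ℝ (b i)).integrable_comp h1.1, (innerSL ℝ (b i)).integrable_comp h1.2⟩
  have hmulint : ∀ i, ∀ g : ℝ → ℝ, Continuous g → ∀ a e : ℝ, 0 ≤ a → a ≤ e →
      IntervalIntegrable (fun s => g s * ⟪b i, f s⟫_ℝ) volume a e := by
    intro i g hg a e ha hae
    exact (hφint i a e ha hae).continuousOn_mul hg.continuousOn
  -- main estimate
  have hmain : ∀ ε : ℝ, 0 < ε → ∀ᶠ T in atTop,
      ‖v T‖ ≤ (1 + Real.sqrt d) / c * (F + ε) + Real.sqrt d * ε := by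
    intro ε hε
    have hFε : 0 < F + ε := by linarith
    -- bound on `f` after some time
    have hev : ∀ᶠ t in atTop ⊓ ae (volume : Measure ℝ), ‖f t‖ₑ < ENNReal.ofReal (F + ε) := by
      have h1 : essLimsup f < ENNReal.ofReal (F + ε) := by
        rw [hFeq]
        exact (ENNReal.ofReal_lt_ofReal_iff hFε).mpr (by linarith)
      exact Filter.eventually_lt_of_limsup_lt h1 (by isBoundedDefault)
    obtain ⟨S1, hS1, S2, hS2, hS⟩ := Filter.eventually_inf.mp hev
    obtain ⟨T1, hT1⟩ := Filter.mem_atTop_sets.mp hS1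
    set T0 : ℝ := max T1 0 with hT0
    have hT00 : 0 ≤ T0 := le_max_right _ _
    have hfbd : ∀ᵐ t ∂(volume : Measure ℝ), T0 ≤ t → ‖f t‖ ≤ F + ε := by
      filter_upwards [hS2] with t ht htT
      have h1 := hS t ⟨hT1 t ((le_max_left _ _).trans htT), ht⟩
      rw [← ofReal_norm, ENNReal.ofReal_lt_ofReal_iff hFε] at h1
      exact h1.le
    -- the vanishing part
    set R : Fin d → ℝ → ℝ := fun i T => h i T * ⟪b i, v 0⟫_ℝ -
      lam i * (G i T * ⟪b i, u 0⟫_ℝ) + ∫ s in (0 : ℝ)..T0, h i (T - s) * ⟪b i, f s⟫_ℝ with hR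
    have hRt : ∀ i, Tendsto (R i) atTop (𝓝 0) := by
      intro i
      have h1 := (hk i).tendsto_h.mul_const (⟪b i, v 0⟫_ℝ)
      have h2 := ((hk i).tendsto_G.mul_const (⟪b i, u 0⟫_ℝ)).const_mul (lam i)
      have h3 : Tendsto (fun T => ∫ s in (0 : ℝ)..T0, h i (T - s) * ⟪b i, f s⟫_ℝ) atTop (𝓝 0) := by
        set W := ∫ s in (0 : ℝ)..T0, |⟪b i, f s⟫_ℝ| with hW
        have hW0 : 0 ≤ W := integral_nonneg hT00 (fun _ _ => abs_nonneg _)
        rw [Metric.tendsto_atTop]
        intro η hη
        obtain ⟨N, hN⟩ := (Metric.tendsto_atTop.mp (hk i).tendsto_h) (η / (W + 1)) (by positivity)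
        refine ⟨N + T0, fun T hT => ?_⟩
        rw [dist_zero_right]
        have h4 : ‖∫ s in (0 : ℝ)..T0, h i (T - s) * ⟪b i, f s⟫_ℝ‖ ≤
            ∫ s in (0 : ℝ)..T0, η / (W + 1) * |⟪b i, f s⟫_ℝ| := by
          apply intervalIntegral.norm_integral_le_of_norm_le hT00
          · filter_upwards with s hs
            have h5 := hN (T - s) (by linarith [hs.2])
            rw [dist_zero_right] at h5
            rw [norm_mul, Real.norm_eq_abs (⟪b i, f s⟫_ℝ)]
            gcongr
          · exact ((hφint i 0 T0 le_rfl hT00).abs).const_mul _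
        rw [intervalIntegral.integral_const_mul] at h4
        calc _ ≤ η / (W + 1) * W := h4
          _ < η := by
            rw [div_mul_eq_mul_div, div_lt_iff₀ (by positivity)]
            nlinarith
      have h6 := (h1.sub h2).add h3
      simp only [zero_mul, mul_zero, sub_zero, add_zero] at h6
      exact h6
    have hRev : ∀ᶠ T in atTop, ∀ i, |R i T| ≤ ε := by
      rw [Filter.eventually_all]
      intro i
      have := (hRt i).abs
      rw [abs_zero] at this
      exact (this.eventually_lt_const hε).mono (fun _ h => le_of_lt h)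
    filter_upwards [hRev, eventually_gt_atTop T0] with T hRT hTT0
    have hT0' : 0 < T := lt_of_le_of_lt hT00 hTT0
    -- splitting
    set p : Fin d → ℝ := fun i => ∫ s in T0..T, clip c (h i) (T - s) * ⟪b i, f s⟫_ℝ with hp
    set q : Fin d → ℝ := fun i =>
      ∫ s in T0..T, (h i (T - s) - clip c (h i) (T - s)) * ⟪b i, f s⟫_ℝ with hq
    have hcc : ∀ i, Continuous fun s => clip c (h i) (T - s) := fun i =>
      (clip_cont (hch i)).comp (continuous_const.sub continuous_id)
    have hch' : ∀ i, Continuous fun s => h i (T - s) := fun i =>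
      (hch i).comp (continuous_const.sub continuous_id)
    have hsplit : ∀ i, ⟪b i, v T⟫_ℝ = R i T + p i + q i := by
      intro i
      rw [hrepr i T hT0']
      have h1 : ∫ s in (0 : ℝ)..T, h i (T - s) * ⟪b i, f s⟫_ℝ =
          (∫ s in (0 : ℝ)..T0, h i (T - s) * ⟪b i, f s⟫_ℝ) +
            ∫ s in T0..T, h i (T - s) * ⟪b i, f s⟫_ℝ := by
        rw [integral_add_adjacent_intervals]
        · exact hmulint i _ (hch' i) 0 T0 le_rfl hT00
        · exact hmulint i _ (hch' i) T0 T hT00 hTT0.le
      have h2 : ∫ s in T0..T, h i (T - s) * ⟪b i, f s⟫_ℝ = p i + q i := by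
        simp only [hp, hq]
        rw [← intervalIntegral.integral_add]
        · apply integral_congr
          intro s _
          simp only
          ring
        · exact hmulint i _ (hcc i) T0 T hT00 hTT0.le
        · exact hmulint i _ ((hch' i).sub (hcc i)) T0 T hT00 hTT0.le
      rw [h1, h2]
      simp only [hR]
      ring
    have hv : v T = ∑ i, (R i T) • b i + ∑ i, p i • b i + ∑ i, q i • b i := by
      rw [← Finset.sum_add_distrib, ← Finset.sum_add_distrib, ← b.sum_repr' (v T)]
      apply Finset.sum_congr rfl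
      intro i _
      rw [hsplit i, add_smul, add_smul]
    have hRnorm : ‖∑ i, (R i T) • b i‖ ≤ Real.sqrt d * ε := norm_basis_sum_le b hε.le hRT
    have hqle : ∀ i, |q i| ≤ (F + ε) / c := by
      intro i
      have h1 : ‖q i‖ ≤ ∫ s in T0..T, (F + ε) * max (|h i (T - s)| - Real.exp (-c * (T - s))) 0 := by
        simp only [hq]
        apply intervalIntegral.norm_integral_le_of_norm_le hTT0.le
        · filter_upwards [hfbd] with s hs hs2
          rw [norm_mul, Real.norm_eq_abs, abs_sub_clip, mul_comm (F + ε)]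
          have h2 : ‖⟪b i, f s⟫_ℝ‖ ≤ F + ε := by
            calc ‖⟪b i, f s⟫_ℝ‖ ≤ ‖b i‖ * ‖f s‖ := norm_inner_le_norm _ _
              _ = ‖f s‖ := by rw [b.norm_eq_one, one_mul]
              _ ≤ F + ε := hs hs2.1.le
          gcongr
        · apply Continuous.intervalIntegrable
          have := hch' i
          fun_prop
      rw [intervalIntegral.integral_const_mul,
        intervalIntegral.integral_comp_sub_left
          (fun s => max (|h i s| - Real.exp (-c * s)) 0) T, sub_self] at h1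
      have h3 := (hk i).excess (T - T0) (by linarith)
      calc |q i| ≤ _ := h1
        _ ≤ (F + ε) * (1 / c) := by gcongr
        _ = (F + ε) / c := by ring
    have hqnorm : ‖∑ i, q i • b i‖ ≤ Real.sqrt d * ((F + ε) / c) :=
      norm_basis_sum_le b (by positivity) hqle
    have hpnorm : ‖∑ i, p i • b i‖ ≤ (F + ε) / c := by
      have h1 : ∑ i, p i • b i =
          ∫ s in T0..T, ∑ i, (clip c (h i) (T - s) * ⟪b i, f s⟫_ℝ) • b i := by
        rw [intervalIntegral.integral_finsetSum]
        · apply Finset.sum_congr rfl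
          intro i _
          rw [intervalIntegral.integral_smul_const]
        · intro i _
          have h2 := hmulint i _ (hcc i) T0 T hT00 hTT0.le
          exact ⟨h2.1.smul_const _, h2.2.smul_const _⟩
      rw [h1]
      calc _ ≤ ∫ s in T0..T, (F + ε) * Real.exp (-c * (T - s)) := by
            apply intervalIntegral.norm_integral_le_of_norm_le hTT0.le
            · filter_upwards [hfbd] with s hs hs2
              have h2 := norm_basis_sum_mul_le b (x := fun i => clip c (h i) (T - s))
                (Real.exp_pos (-c * (T - s))).le (fun i => abs_clip_le c (h i) (T - s)) (f s)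
              calc _ ≤ _ := h2
                _ ≤ Real.exp (-c * (T - s)) * (F + ε) := by
                  gcongr
                  exact hs hs2.1.le
                _ = _ := by ring
            · apply Continuous.intervalIntegrable
              fun_prop
        _ = (F + ε) * ∫ s in T0..T, Real.exp (-c * (T - s)) := by
            rw [intervalIntegral.integral_const_mul]
        _ ≤ (F + ε) * (1 / c) := by
            gcongr
            exact integral_exp_le hc T0 T
        _ = (F + ε) / c := by ring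
    calc ‖v T‖ ≤ ‖∑ i, (R i T) • b i‖ + ‖∑ i, p i • b i‖ + ‖∑ i, q i • b i‖ := by
          rw [hv]; exact norm_add₃_le
      _ ≤ Real.sqrt d * ε + (F + ε) / c + Real.sqrt d * ((F + ε) / c) := by gcongr
      _ = (1 + Real.sqrt d) / c * (F + ε) + Real.sqrt d * ε := by ring
  -- conclusion
  have hlim : ∀ ε : ℝ, 0 < ε → limsup (fun t => ‖v t‖ₑ) atTop ≤
      ENNReal.ofReal ((1 + Real.sqrt d) / c * (F + ε) + Real.sqrt d * ε) := by
    intro ε hε
    apply Filter.limsup_le_of_le (by isBoundedDefault)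
    filter_upwards [hmain ε hε] with T hT
    rw [← ofReal_norm]
    exact ENNReal.ofReal_le_ofReal hT
  have hcont : Tendsto (fun ε : ℝ =>
      ENNReal.ofReal ((1 + Real.sqrt d) / c * (F + ε) + Real.sqrt d * ε)) (𝓝[>] 0)
      (𝓝 (ENNReal.ofReal ((1 + Real.sqrt d) / c * (F + 0) + Real.sqrt d * 0))) := by
    apply Tendsto.mono_left _ nhdsWithin_le_nhds
    apply Continuous.tendsto
    exact ENNReal.continuous_ofReal.comp (by fun_prop)
  have hfin := ge_of_tendsto hcont (by
    filter_upwards [self_mem_nhdsWithin] with ε hε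
    exact hlim ε hε)
  rw [mul_zero, add_zero, add_zero, ENNReal.ofReal_mul (by positivity), ← hFeq] at hfin
  exact hfin

end Pool.Agent.Lib.MP_38ba9c_an
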