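import Mathlib
import Pool.Agent.Lib.MP_38ba9c_an.Kernel
import Pool.Agent.Lib.MP_38ba9c_an.Repr
import Pool.Agent.Lib.MP_38ba9c_an.Defs
import Pool.Agent.Lib.MP_38ba9c_an.Lower4
import Pool.Agent.Lib.MP_38ba9c_an.Upper

open Filter MeasureTheory Set Topology intervalIntegral
open scoped ENNReal InnerProductSpace

namespace Pool.Agent.Lib.MP_38ba9c_an

lemma lower_eta {d : ℕ} (hd : 0 < d) {c η M : ℝ} (hc : 0 < c) (hη : 0 < η) (hη1 : η ≤ 1)
    (hM : 8 ≤ M) {l : Fin d → ℝ} (hl : ∀ i, 0 < l i) (hlc : ∀ i, l i ≤ η / M * c ^ 2)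
    (hlj : ∀ i j, i < j → l j ≤ η / M * l i)
    (hθ0 : 0 ≤ 1 - 2 * η - Real.exp (-(M / 2)) - Real.exp (-M))
    {k : ℝ} (hk : Admissible (Matrix.diagonal l) c k) :
    (1 + Real.sqrt d) * ((1 - 2 * η - Real.exp (-(M / 2)) - Real.exp (-M)) / c) ≤ k := by
  have hM0 : 0 < M := by linarith
  have hηM : η / M ≤ 1 / 8 := by
    rw [div_le_div_iff₀ hM0 (by norm_num)]
    linarith
  set s : Fin d → ℝ := fun i => Real.sqrt (c ^ 2 - 4 * l i) with hs
  have hdisc : ∀ i, 0 < c ^ 2 - 4 * l i := by
    intro i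
    have h1 := hlc i
    have h2 : η / M * c ^ 2 ≤ 1 / 8 * c ^ 2 := by gcongr
    have h3 : 0 < c ^ 2 := by positivity
    linarith
  have hs0 : ∀ i, 0 < s i := fun i => Real.sqrt_pos.mpr (hdisc i)
  have hsq : ∀ i, s i ^ 2 = c ^ 2 - 4 * l i := fun i => Real.sq_sqrt (hdisc i).le
  have hsc : ∀ i, s i < c := by
    intro i
    rw [hs]
    simp only
    rw [Real.sqrt_lt' hc]
    have := hl i
    linarith
  set α : Fin d → ℝ := fun i => (c - s i) / 2 with hα
  set β : Fin d → ℝ := fun i => (c + s i) / 2 with hβ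
  have hprod : ∀ i, α i * β i = l i := by
    intro i
    simp only [hα, hβ]
    have := hsq i
    nlinarith
  have hα0 : ∀ i, 0 < α i := by
    intro i
    simp only [hα]
    have := hsc i
    linarith
  have hβc : ∀ i, c / 2 ≤ β i := by
    intro i
    simp only [hβ]
    have := hs0 i
    linarith
  have hβc' : ∀ i, β i ≤ c := by
    intro i
    simp only [hβ]
    have := hsc i
    linarith
  have hab : ∀ i, α i < β i := by
    intro i
    simp only [hα, hβ]
    have := hs0 i
    linarith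
  have hsum : ∀ i, α i + β i = c := by
    intro i
    simp only [hα, hβ]
    ring
  have hba : ∀ i, β i - α i ≤ c := by
    intro i
    have := hα0 i
    have := hβc' i
    linarith
  have hαup : ∀ i, α i * c ≤ 2 * l i := by
    intro i
    have h1 := hprod i
    have h2 := hβc i
    have h3 := hα0 i
    nlinarith
  have hαlow : ∀ i, l i ≤ α i * c := by
    intro i
    have h1 := hprod i
    have h2 := hβc' i
    have h3 := hα0 i
    nlinarith
  set τ0 : ℝ := M / c with hτ0
  set a : Fin d → ℝ := fun i => c * η / l i with ha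
  set e : Fin d → ℝ := fun i => c * M / l i with he
  have hτ00 : 0 < τ0 := by positivity
  have haτ : ∀ i, τ0 ≤ a i := by
    intro i
    simp only [hτ0, ha]
    rw [div_le_div_iff₀ hc (hl i)]
    have h1 := hlc i
    calc M * l i ≤ M * (η / M * c ^ 2) := by gcongr
      _ = c * η * c := by field_simp
  have hae : ∀ i, a i ≤ e i := by
    intro i
    simp only [ha, he]
    have := hl i
    gcongr
    linarith
  have hdisj : ∀ i j, i < j → e i ≤ a j := by
    intro i j hij
    simp only [ha, he]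
    rw [div_le_div_iff₀ (hl i) (hl j)]
    have h1 := hlj i j hij
    calc c * M * l j ≤ c * M * (η / M * l i) := by gcongr
      _ = c * η * l i := by field_simp
  have hexpβ : ∀ i t, τ0 ≤ t → Real.exp (-(β i) * t) ≤ Real.exp (-(M / 2)) := by
    intro i t ht
    apply Real.exp_le_exp.mpr
    have h1 : c / 2 * (M / c) ≤ β i * t := by
      have h2 := hβc i
      have h3 : 0 ≤ β i := by linarith [hα0 i, hab i]
      have h4 : 0 ≤ M / c := by positivity
      gcongr
    have h2 : c / 2 * (M / c) = M / 2 := by field_simp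
    linarith
  have hnum : ∀ i t, 0 ≤ t → 0 ≤ Real.exp (-(α i) * t) - Real.exp (-(β i) * t) := by
    intro i t ht
    have h1 := hab i
    have : Real.exp (-(β i) * t) ≤ Real.exp (-(α i) * t) := by
      apply Real.exp_le_exp.mpr
      nlinarith
    linarith
  have hGle : ∀ i x, 0 ≤ x → x / c ≤ x / (β i - α i) := by
    intro i x hx
    have h1 := hba i
    have h2 : 0 < β i - α i := by linarith [hab i]
    gcongr
  have hep : 0 < Real.exp (-M) := Real.exp_pos _
  have main := lower_aux hd (c := c) (α := α) (β := β) hα0 hab hsum hτ00 (a := a) (e := e) haτ hae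
    hdisj (θ := (1 - 2 * η - Real.exp (-(M / 2)) - Real.exp (-M)) / c) ?_ ?_ (k := k) ?_
  · exact main
  · intro i
    unfold Gov
    have h1 : 1 - 2 * η ≤ Real.exp (-(α i) * τ0) := by
      have h2 := Real.add_one_le_exp (-(α i) * τ0)
      have h3 : α i * τ0 ≤ 2 * η := by
        have h4 : α i * c ≤ 2 * (η / M * c ^ 2) := (hαup i).trans (by have := hlc i; linarith)
        have h5 : α i * τ0 = (α i * c) * (M / c ^ 2) := by rw [hτ0]; field_simp
        rw [h5]
        calc (α i * c) * (M / c ^ 2) ≤ (2 * (η / M * c ^ 2)) * (M / c ^ 2) := by gcongr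
          _ = 2 * η := by field_simp
      linarith
    have h2 := hexpβ i τ0 le_rfl
    calc _ ≤ (1 - 2 * η - Real.exp (-(M / 2)) - Real.exp (-M)) / (β i - α i) := hGle i _ hθ0
      _ ≤ _ := by
        have h3 : 0 < β i - α i := by linarith [hab i]
        apply (div_le_div_iff_of_pos_right h3).mpr
        linarith
  · intro i
    unfold Gov
    have h1 : 1 - 2 * η ≤ Real.exp (-(α i) * a i) := by
      have h2 := Real.add_one_le_exp (-(α i) * a i)
      have h3 : α i * a i ≤ 2 * η := by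
        simp only [ha]
        have h4 := hαup i
        have h5 := hl i
        calc α i * (c * η / l i) = (α i * c) * (η / l i) := by ring
          _ ≤ (2 * l i) * (η / l i) := by gcongr
          _ = 2 * η := by field_simp
      linarith
    have h2 := hexpβ i (a i) (haτ i)
    have h4 : Real.exp (-(α i) * e i) ≤ Real.exp (-M) := by
      apply Real.exp_le_exp.mpr
      have h5 : M ≤ α i * e i := by
        simp only [he]
        have h6 := hαlow i
        have h7 := hl i
        calc M = l i * (M / l i) := by field_simp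
          _ ≤ (α i * c) * (M / l i) := by gcongr
          _ = α i * (c * M / l i) := by ring
      linarith
    have h5 : 0 < Real.exp (-(β i) * e i) := Real.exp_pos _
    calc _ ≤ (1 - 2 * η - Real.exp (-(M / 2)) - Real.exp (-M)) / (β i - α i) := hGle i _ hθ0
      _ ≤ _ := by
        have h3 : 0 < β i - α i := by linarith [hab i]
        have h6 : (Real.exp (-α i * a i) - Real.exp (-β i * a i)) / (β i - α i) -
            (Real.exp (-α i * e i) - Real.exp (-β i * e i)) / (β i - α i) =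
            ((Real.exp (-α i * a i) - Real.exp (-β i * a i)) -
            (Real.exp (-α i * e i) - Real.exp (-β i * e i))) / (β i - α i) :=
          (sub_div _ _ _).symm
        rw [h6]
        apply (div_le_div_iff_of_pos_right h3).mpr
        linarith
  · have : (fun i => α i * β i) = l := funext hprod
    rw [this]
    exact hk

lemma lower_params {d : ℕ} (hd : 0 < d) {ε : ℝ} (hε : 0 < ε) (hε1 : ε ≤ 1) :
    ∃ η : ℝ, 0 < η ∧ η < 1 ∧ ∀ c : ℝ, 0 < c → ∀ l : Fin d → ℝ, (∀ i, 0 < l i) →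
      (∀ i, l i ≤ η * c ^ 2) → (∀ i j, i < j → l j ≤ η * l i) →
      ∀ k, Admissible (Matrix.diagonal l) c k → (1 + Real.sqrt d) * ((1 - ε) / c) ≤ k := by
  obtain ⟨M, hM8, hM1⟩ : ∃ M : ℝ, 8 ≤ M ∧ Real.exp (-(M / 2)) ≤ ε / 4 := by
    have h1 := tendsto_exp_neg_mul (α := 1 / 2) (by norm_num)
    have h2 := (h1.eventually_lt_const (show (0 : ℝ) < ε / 4 by positivity)).and
      (eventually_ge_atTop (8 : ℝ))
    obtain ⟨M, hM⟩ := h2.exists
    refine ⟨M, hM.2, ?_⟩
    have h3 : -(M / 2) = -(1 / 2) * M := by ring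
    rw [h3]
    exact hM.1.le
  have hM2 : Real.exp (-M) ≤ ε / 4 := by
    refine le_trans (Real.exp_le_exp.mpr ?_) hM1
    linarith
  refine ⟨ε / 4 / M, by positivity, ?_, ?_⟩
  · rw [div_lt_one (by linarith)]
    linarith
  · intro c hc l hl hlc hlj k hk
    have hθ : 1 - ε ≤ 1 - 2 * (ε / 4) - Real.exp (-(M / 2)) - Real.exp (-M) := by linarith
    have h1 := lower_eta hd hc (η := ε / 4) (by positivity) (by linarith) hM8 hl hlc hlj
      (by linarith) hk
    refine le_trans ?_ h1
    gcongr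

/-- `K(A, c)` is the least admissible constant. -/
theorem isLeast_K {d : ℕ} {A : Matrix (Fin d) (Fin d) ℝ} (hA : A.PosDef) {c : ℝ}
    (hc : 0 < c) : IsLeast {k : ℝ | Admissible A c k} (K A c) := by
  have hne : {k : ℝ | Admissible A c k}.Nonempty := ⟨_, admissible_upper hA hc⟩
  have hbdd : BddBelow {k : ℝ | Admissible A c k} := ⟨0, fun k hk => hk.1⟩
  refine ⟨⟨le_csInf hne fun k hk => hk.1, ?_⟩, fun k hk => csInf_le hbdd hk⟩
  intro f u v hf hF hsol
  obtain ⟨x, -, hx, hxmem⟩ := exists_seq_tendsto_sInf hne hbdd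
  have h1 : Tendsto (fun n => ENNReal.ofReal (x n) * essLimsup f) atTop
      (𝓝 (ENNReal.ofReal (K A c) * essLimsup f)) := by
    apply ENNReal.Tendsto.mul_const
    · exact (ENNReal.continuous_ofReal.tendsto _).comp hx
    · right; exact hF.ne
  exact ge_of_tendsto' h1 fun n => (hxmem n).2 f u v hf hF hsol

theorem K_le {d : ℕ} {A : Matrix (Fin d) (Fin d) ℝ} (hA : A.PosDef) {c : ℝ}
    (hc : 0 < c) : c * K A c ≤ 1 + Real.sqrt d := by
  have h1 := (isLeast_K hA hc).2 (admissible_upper hA hc)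
  calc c * K A c ≤ c * ((1 + Real.sqrt d) / c) := by gcongr
    _ = 1 + Real.sqrt d := by field_simp

theorem K_nonneg {d : ℕ} {A : Matrix (Fin d) (Fin d) ℝ} (hA : A.PosDef) {c : ℝ}
    (hc : 0 < c) : 0 ≤ K A c := (isLeast_K hA hc).1.1

lemma posDef_diag {d : ℕ} {l : Fin d → ℝ} (hl : ∀ i, 0 < l i) :
    (Matrix.diagonal l).PosDef := Matrix.PosDef.diagonal hl

/-- The value of `M_d`. -/
theorem M_value {d : ℕ} (hd : 0 < d) {c : ℝ} (hc : 0 < c) :
    IsLUB {x : ℝ | ∃ A : Matrix (Fin d) (Fin d) ℝ, A.PosDef ∧ x = c * K A c} (1 + Real.sqrt d) := by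
  constructor
  · rintro x ⟨A, hA, rfl⟩
    exact K_le hA hc
  · intro y hy
    by_contra hlt
    push Not at hlt
    have hs : 0 < 1 + Real.sqrt d := by positivity
    obtain ⟨ε, hε, hε1, hεy⟩ : ∃ ε : ℝ, 0 < ε ∧ ε ≤ 1 ∧ y < (1 + Real.sqrt d) * (1 - ε) := by
      have h1 : Tendsto (fun ε : ℝ => (1 + Real.sqrt d) * (1 - ε)) (𝓝[>] 0)
          (𝓝 ((1 + Real.sqrt d) * (1 - 0))) := by
        apply Tendsto.mono_left _ nhdsWithin_le_nhds
        apply Continuous.tendsto
        fun_prop
      rw [sub_zero, mul_one] at h1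
      have h2 := (h1.eventually_const_lt hlt).and
        (Ioo_mem_nhdsGT (show (0 : ℝ) < 1 by norm_num))
      obtain ⟨ε, h3, h4⟩ := h2.exists
      exact ⟨ε, h4.1, h4.2.le, h3⟩
    obtain ⟨η, hη, hη1, hmain⟩ := lower_params hd hε hε1
    set l : Fin d → ℝ := fun i => c ^ 2 * η ^ ((i : ℕ) + 1) with hl
    have hl0 : ∀ i, 0 < l i := fun i => by positivity
    have h1 : ∀ k, Admissible (Matrix.diagonal l) c k → (1 + Real.sqrt d) * ((1 - ε) / c) ≤ k := by
      apply hmain c hc l hl0
      · intro i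
        simp only [hl]
        have : η ^ ((i : ℕ) + 1) ≤ η ^ 1 := pow_le_pow_of_le_one hη.le hη1.le (by omega)
        rw [pow_one] at this
        nlinarith [sq_nonneg c]
      · intro i j hij
        simp only [hl]
        have h2 : η ^ ((j : ℕ) + 1) ≤ η ^ ((i : ℕ) + 1 + 1) :=
          pow_le_pow_of_le_one hη.le hη1.le (by have : (i : ℕ) < j := hij; omega)
        calc c ^ 2 * η ^ ((j : ℕ) + 1) ≤ c ^ 2 * η ^ ((i : ℕ) + 1 + 1) := by gcongr
          _ = η * (c ^ 2 * η ^ ((i : ℕ) + 1)) := by ring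
    have hA := posDef_diag hl0
    have h2 := h1 _ (isLeast_K hA hc).1
    have h3 : c * K (Matrix.diagonal l) c ≤ y := hy ⟨_, hA, rfl⟩
    have h4 : (1 + Real.sqrt d) * (1 - ε) ≤ c * K (Matrix.diagonal l) c := by
      calc (1 + Real.sqrt d) * (1 - ε) = c * ((1 + Real.sqrt d) * ((1 - ε) / c)) := by field_simp
        _ ≤ _ := by gcongr
    linarith

/-- The value of `L_d`. -/
theorem L_value {d : ℕ} (hd : 0 < d) :
    IsLUB {x : ℝ | ∃ A : Matrix (Fin d) (Fin d) ℝ, A.PosDef ∧
      x = liminf (fun c : ℝ => c * K A c) atTop} (1 + Real.sqrt d) := by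
  have hub : ∀ A : Matrix (Fin d) (Fin d) ℝ, A.PosDef →
      IsCoboundedUnder (· ≥ ·) atTop (fun c : ℝ => c * K A c) := by
    intro A hA
    apply IsBoundedUnder.isCoboundedUnder_ge
    refine ⟨1 + Real.sqrt d, ?_⟩
    rw [eventually_map]
    filter_upwards [eventually_gt_atTop 0] with c hc
    exact K_le hA hc
  have hlb : ∀ A : Matrix (Fin d) (Fin d) ℝ, A.PosDef →
      IsBoundedUnder (· ≥ ·) atTop (fun c : ℝ => c * K A c) := by
    intro A hA
    refine ⟨0, ?_⟩
    rw [eventually_map]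
    filter_upwards [eventually_gt_atTop 0] with c hc
    exact mul_nonneg hc.le (K_nonneg hA hc)
  constructor
  · rintro x ⟨A, hA, rfl⟩
    apply liminf_le_of_le (hlb A hA)
    intro b hb
    obtain ⟨c, hc1, hc2⟩ := (hb.and (eventually_gt_atTop 0)).exists
    exact hc1.trans (K_le hA hc2)
  · intro y hy
    by_contra hlt
    push Not at hlt
    have hs : 0 < 1 + Real.sqrt d := by positivity
    obtain ⟨ε, hε, hε1, hεy⟩ : ∃ ε : ℝ, 0 < ε ∧ ε ≤ 1 ∧ y < (1 + Real.sqrt d) * (1 - ε) := by
      have h1 : Tendsto (fun ε : ℝ => (1 + Real.sqrt d) * (1 - ε)) (𝓝[>] 0)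
          (𝓝 ((1 + Real.sqrt d) * (1 - 0))) := by
        apply Tendsto.mono_left _ nhdsWithin_le_nhds
        apply Continuous.tendsto
        fun_prop
      rw [sub_zero, mul_one] at h1
      have h2 := (h1.eventually_const_lt hlt).and
        (Ioo_mem_nhdsGT (show (0 : ℝ) < 1 by norm_num))
      obtain ⟨ε, h3, h4⟩ := h2.exists
      exact ⟨ε, h4.1, h4.2.le, h3⟩
    obtain ⟨η, hη, hη1, hmain⟩ := lower_params hd hε hε1
    set l : Fin d → ℝ := fun i => η ^ ((i : ℕ) + 1) with hl
    have hl0 : ∀ i, 0 < l i := fun i => by positivity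
    have h1 : ∀ c : ℝ, 1 ≤ c → ∀ k, Admissible (Matrix.diagonal l) c k →
        (1 + Real.sqrt d) * ((1 - ε) / c) ≤ k := by
      intro c hc
      apply hmain c (by linarith) l hl0
      · intro i
        simp only [hl]
        have : η ^ ((i : ℕ) + 1) ≤ η ^ 1 := pow_le_pow_of_le_one hη.le hη1.le (by omega)
        rw [pow_one] at this
        have h2 : 1 ≤ c ^ 2 := by nlinarith
        nlinarith
      · intro i j hij
        simp only [hl]
        have h2 : η ^ ((j : ℕ) + 1) ≤ η ^ ((i : ℕ) + 1 + 1) :=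
          pow_le_pow_of_le_one hη.le hη1.le (by have : (i : ℕ) < j := hij; omega)
        calc η ^ ((j : ℕ) + 1) ≤ η ^ ((i : ℕ) + 1 + 1) := by gcongr
          _ = η * (η ^ ((i : ℕ) + 1)) := by ring
    have hA := posDef_diag hl0
    have h3 : liminf (fun c : ℝ => c * K (Matrix.diagonal l) c) atTop ≤ y := hy ⟨_, hA, rfl⟩
    have h4 : (1 + Real.sqrt d) * (1 - ε) ≤
        liminf (fun c : ℝ => c * K (Matrix.diagonal l) c) atTop := by
      apply le_liminf_of_le (hub _ hA)
      filter_upwards [eventually_ge_atTop 1] with c hc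
      have hc0 : 0 < c := by linarith
      have h2 := h1 c hc _ (isLeast_K hA hc0).1
      calc (1 + Real.sqrt d) * (1 - ε) = c * ((1 + Real.sqrt d) * ((1 - ε) / c)) := by field_simp
        _ ≤ _ := by gcongr
    linarith

end Pool.Agent.Lib.MP_38ba9c_an
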